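import Pool.Agent.Lib.MP_caab05_ag.F5.Defs
import Pool.Agent.Lib.MP_caab05_ag.ArchDet

namespace Pool.Agent.Caab.F5

open Finset Filter Topology

namespace ArchDet

open Matrix Polynomial Caab.ArchDet

/-- the polynomial basis adapted to the comparison weight -/
noncomputable def QQ (m i : ℕ) : ℝ[X] := (ascPochhammer ℝ i).comp (X + C ((2 * m + 1 : ℕ) : ℝ))

lemma QQ_monic (m i : ℕ) : (QQ m i).Monic := (monic_ascPochhammer ℝ i).comp_X_add_C _

lemma QQ_deg (m i : ℕ) : (QQ m i).natDegree = i := by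
  rw [QQ, natDegree_comp, ascPochhammer_natDegree, natDegree_X_add_C, mul_one]

lemma QQ_eval (m i k : ℕ) :
    ((k + 2 * m).factorial : ℝ) * (QQ m i).eval (k : ℝ) = ((k + (2 * m + i)).factorial : ℝ) := by
  rw [QQ, eval_comp, eval_add, eval_X, eval_C, ← Nat.cast_add,
    ascPochhammer_nat_eq_natCast_ascFactorial, ← add_assoc k (2 * m) i,
    ← Nat.factorial_mul_ascFactorial (k + 2 * m) i]
  push_cast
  rfl

/-- the comparison Gram matrix -/
noncomputable def GG (m : ℕ) : Matrix (Fin (20 * m)) (Fin (20 * m)) ℝ := Matrix.of fun i j =>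
  (((2 * m + i).factorial : ℝ) / ((43 * m - 1 - i).factorial : ℝ)) *
    ((((2 * m + j).factorial : ℝ) / ((43 * m - 1 - j).factorial : ℝ)) *
      ((41 * m - 2 - i - j).factorial : ℝ))

lemma GG_hasSum (m : ℕ) (i j : Fin (20 * m)) :
    HasSum (fun k : ℕ => wpr m k * ((QQ m i).eval (k : ℝ) * (QQ m j).eval (k : ℝ))) (GG m i j) := by
  have hi := i.2
  have hj := j.2
  have h := gauss (2 * m + i) (2 * m + j) (41 * m - 2 - i - j)
  rw [show 2 * m + i + (2 * m + j) + 2 + (41 * m - 2 - i - j) = 45 * m by omega,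
    show 2 * m + j + (41 * m - 2 - i - j) + 1 = 43 * m - 1 - i by omega,
    show 2 * m + i + (41 * m - 2 - i - j) + 1 = 43 * m - 1 - j by omega] at h
  have e1 : (fun k : ℕ => wpr m k * ((QQ m i).eval (k : ℝ) * (QQ m j).eval (k : ℝ))) =
      gs (2 * m + i) (2 * m + j) (45 * m) := by
    funext k
    simp only [gs, wpr, ← QQ_eval]
    ring
  rw [e1, GG, of_apply]
  have e2 : ∀ a b c d e : ℝ, a / d * (b / e * c) = a * b * c / (d * e) := fun a b c d e => by ring
  rw [e2]
  exact h

lemma GG_det (m : ℕ) : (GG m).det = detpr m := by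
  have h1 := det_mul_column (fun i : Fin (20 * m) =>
    ((2 * m + i).factorial : ℝ) / ((43 * m - 1 - i).factorial : ℝ))
    (Matrix.of fun i j : Fin (20 * m) =>
      (((2 * m + j).factorial : ℝ) / ((43 * m - 1 - j).factorial : ℝ)) *
        ((41 * m - 2 - i - j).factorial : ℝ))
  have h2 := det_mul_row (fun j : Fin (20 * m) =>
    ((2 * m + j).factorial : ℝ) / ((43 * m - 1 - j).factorial : ℝ))
    (Matrix.of fun i j : Fin (20 * m) => ((41 * m - 2 - i - j).factorial : ℝ))
  have h3 : (Matrix.of fun i j : Fin (20 * m) => ((41 * m - 2 - i - j).factorial : ℝ)).det =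
      (Matrix.of fun i j : Fin (20 * m) => ((m + i + j).factorial : ℝ)).det := by
    rw [← det_submatrix_equiv_self Fin.revPerm]
    congr 1
    ext i j
    have hi := i.2
    have hj := j.2
    simp only [submatrix_apply, of_apply, Fin.revPerm_apply, Fin.val_rev]
    congr 2
    omega
  simp only [of_apply] at h1 h2
  rw [GG, h1, h2, h3, det_fact, detpr, Fin.prod_univ_eq_prod_range
    (fun i => ((2 * m + i).factorial : ℝ) / ((43 * m - 1 - i).factorial : ℝ)),
    ← prod_mul_distrib, ← prod_mul_distrib]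
  exact prod_congr rfl fun i _ => by ring

end ArchDet

open ArchDet Matrix Polynomial in
open Caab.ArchDet hiding QQ QQ_monic QQ_deg QQ_eval GG GG_hasSum GG_det in
theorem arch_det (m : ℕ) (hm : 1 ≤ m) (w M : ℕ → ℝ) (r : ℝ) (hw : ∀ k, 0 < w k) (hle : ∀ k, w k ≤ r * wpr m k)
    (hM : ∀ l ≤ 40 * m - 2, HasSum (fun k : ℕ => w k * (k : ℝ) ^ l) (M l)) :
    0 < hank M (20 * m) ∧ hank M (20 * m) ≤ ((20 * m).factorial : ℝ) * r ^ (20 * m) * detpr m := by
  constructor
  · have h : ∀ i j : Fin (20 * m), HasSum (fun k : ℕ => w k * ((k : ℝ) ^ (i : ℕ) * (k : ℝ) ^ (j : ℕ)))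
        ((Matrix.of fun i j : Fin (20 * m) => M (i + j)) i j) := fun i j => by
      have hi := i.2
      have hj := j.2
      simpa only [pow_add, of_apply] using hM (i + j) (by omega)
    refine (PosDef.of_dotProduct_mulVec_pos (quad_herm h) fun x hx => ?_).det_pos
    obtain ⟨k, hk⟩ := exists_ne x hx
    exact lt_of_lt_of_le (mul_pos (hw k) (by positivity)) (le_hasSum (quad_hasSum h x) k
      fun k _ => mul_nonneg (hw k).le (sq_nonneg _))
  · have h : ∀ i j : Fin (20 * m),
        HasSum (fun k : ℕ => w k * ((QQ m i).eval (k : ℝ) * (QQ m j).eval (k : ℝ)))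
        ((Matrix.of fun i j : Fin (20 * m) => mom M (QQ m i * QQ m j)) i j) := fun i j => by
      have hi := i.2
      have hj := j.2
      have := mom_hasSum hM (QQ m i * QQ m j)
        (natDegree_mul_le.trans (by rw [QQ_deg, QQ_deg]; omega))
      simpa only [eval_mul, of_apply] using this
    have hb := hank_basis (mom M) (20 * m) (fun i => QQ m i) (fun i => QQ m i)
      (fun i => QQ_monic m i) (fun i => QQ_deg m i) (fun i => QQ_monic m i) (fun i => QQ_deg m i)
    simp only [mom_pow] at hb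
    rw [← hb, ← GG_det]
    refine det_compare (PosSemidef.of_dotProduct_mulVec_nonneg (quad_herm h) fun x => ?_)
      (quad_herm (GG_hasSum m)) r fun x => ?_
    · exact (quad_hasSum h x).nonneg fun k => mul_nonneg (hw k).le (sq_nonneg _)
    · refine hasSum_le (fun k => ?_) (quad_hasSum h x) ((quad_hasSum (GG_hasSum m) x).mul_left r)
      rw [← mul_assoc]
      exact mul_le_mul_of_nonneg_right (hle k) (sq_nonneg _)

end Pool.Agent.Caab.F5
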