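import Pool.Agent.Lib.MP_caab05_ag.F5.Defs
import Pool.Agent.Lib.MP_caab05_ag.ArchNum

namespace Pool.Agent.Caab.F5

open Finset Filter Topology

namespace ArchNum

open Caab.ArchNum

theorem Lf_mul (c m : ℕ) (hc : 1 ≤ c) (hc' : c ≤ 125) (hm : 1 ≤ m) :
    (c : ℝ) ^ 2 * m ^ 2 / 2 * (Real.log c + Real.log m) - 3 * c ^ 2 * m ^ 2 / 4
      - c * (m * (Real.log m + 7)) ≤ Lf (c * m) ∧
    Lf (c * m) ≤ (c : ℝ) ^ 2 * m ^ 2 / 2 * (Real.log c + Real.log m) - 3 * c ^ 2 * m ^ 2 / 4
      + c * (m * (Real.log m + 7)) := by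
  have h := Lf_bounds (c * m) (Nat.mul_pos hc hm)
  have h1 : (1 : ℝ) ≤ c := by exact_mod_cast hc
  have h2 : (1 : ℝ) ≤ m := by exact_mod_cast hm
  have h3 : (c : ℝ) ≤ 125 := by exact_mod_cast hc'
  have h4 : Real.log c ≤ 5 := by
    have k1 : Real.log c ≤ Real.log (2 ^ 7) := Real.log_le_log (by linarith) (by linarith)
    rw [Real.log_pow] at k1
    have := Real.log_two_lt_d9
    push_cast at k1
    linarith
  push_cast at h
  rw [Real.log_mul (by linarith) (by linarith)] at h
  have h5 : 0 ≤ (c : ℝ) * m * (5 - Real.log c) := by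
    apply mul_nonneg (by positivity) (by linarith)
  constructor <;> linarith [h.1, h.2]

theorem log_detpr (m : ℕ) : Real.log (detpr m) = 2 * (Lf (22 * m) - Lf (2 * m))
    - 2 * (Lf (43 * m) - Lf (23 * m)) + Lf (20 * m) + (Lf (21 * m) - Lf (1 * m)) := by
  unfold detpr
  rw [Real.log_prod (fun i _ => by positivity)]
  have e : ∀ i ∈ range (20 * m), Real.log ((((2 * m + i).factorial : ℝ) /
      ((43 * m - 1 - i).factorial : ℝ)) ^ 2 * (i.factorial : ℝ) * ((m + i).factorial : ℝ)) =
      2 * lf (2 * m + i) - 2 * lf (23 * m + (20 * m - 1 - i)) + lf i + lf (m + i) := by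
    intro i hi
    have : 43 * m - 1 - i = 23 * m + (20 * m - 1 - i) := by have := mem_range.1 hi; omega
    rw [Real.log_mul (by positivity) (by positivity), Real.log_mul (by positivity) (by positivity),
      Real.log_pow, Real.log_div (by positivity) (by positivity), this]
    unfold lf
    push_cast; ring
  rw [sum_congr rfl e, sum_add_distrib, sum_add_distrib, sum_sub_distrib, ← mul_sum, ← mul_sum,
    sum_range_reflect (fun j => lf (23 * m + j)) (20 * m), sum_shift, sum_shift, sum_shift,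
    show 2 * m + 20 * m = 22 * m by ring, show 23 * m + 20 * m = 43 * m by ring,
    show m + 20 * m = 21 * m by ring, one_mul]
  rfl

noncomputable def rho (m k : ℕ) : ℝ :=
  ((k + 7 * m).factorial : ℝ) * ((k + 6 * m).factorial : ℝ) * ((k + 5 * m).factorial : ℝ) *
    ((k + 45 * m).factorial : ℝ) /
    (((k + 30 * m).factorial : ℝ) * ((k + 29 * m).factorial : ℝ) * ((k + 2 * m).factorial : ℝ) ^ 2)

theorem rho_pos (m k : ℕ) : 0 < rho m k := by unfold rho; positivity

theorem wbar_eq (m k : ℕ) : wbar m k = rho m k * wpr m k := by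
  unfold wbar rho wpr
  field_simp

theorem rho_succ (m k : ℕ) : rho m (k + 1) *
    (((k : ℝ) + 1 + 30 * m) * (k + 1 + 29 * m) * (k + 1 + 2 * m) ^ 2) =
    rho m k * (((k : ℝ) + 1 + 7 * m) * (k + 1 + 6 * m) * (k + 1 + 5 * m) * (k + 1 + 45 * m)) := by
  have f : ∀ c : ℕ, ((k + 1 + c * m).factorial : ℝ) =
      ((k : ℝ) + 1 + c * m) * ((k + c * m).factorial : ℝ) := by
    intro c
    rw [show k + 1 + c * m = (k + c * m) + 1 by ring, Nat.factorial_succ]
    push_cast; ring
  unfold rho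
  rw [f, f, f, f, f, f, f]
  push_cast
  field_simp

theorem poly_up {K m : ℝ} (hm : 0 ≤ m) (h0 : 0 ≤ K) (h1 : K ≤ 10 * m) :
    (K + 30 * m) * (K + 29 * m) * (K + 2 * m) ^ 2 ≤
      (1 + 1 / 700) * ((K + 7 * m) * (K + 6 * m) * (K + 5 * m) * (K + 45 * m)) := by
  have e : (K + 30 * m) * (K + 29 * m) * (K + 2 * m) ^ 2 =
      (K + 7 * m) * (K + 6 * m) * (K + 5 * m) * (K + 45 * m) +
        m ^ 2 * (193 * K ^ 2 - 1309 * m * K - 5970 * m ^ 2) := by ring
  rw [e]
  rcases le_total K (9 * m) with h | h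
  · have a1 : 193 * K ^ 2 - 1309 * m * K - 5970 * m ^ 2 ≤ 0 := by nlinarith
    have a2 := mul_nonpos_of_nonneg_of_nonpos (sq_nonneg m) a1
    have a3 : 0 ≤ (K + 7 * m) * (K + 6 * m) * (K + 5 * m) * (K + 45 * m) := by positivity
    linarith
  · have a1 : 193 * K ^ 2 - 1309 * m * K - 5970 * m ^ 2 ≤ 240 * m ^ 2 := by nlinarith
    have a2 := mul_le_mul_of_nonneg_left a1 (sq_nonneg m)
    have a3 : (16 * m) * (15 * m) * (14 * m) * (54 * m) ≤
        (K + 7 * m) * (K + 6 * m) * (K + 5 * m) * (K + 45 * m) := by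
      gcongr <;> linarith
    have a4 : 0 ≤ m ^ 4 := by positivity
    nlinarith

theorem poly_down {K m : ℝ} (hm : 0 ≤ m) (h1 : 10 * m ≤ K) :
    (K + 7 * m) * (K + 6 * m) * (K + 5 * m) * (K + 45 * m) ≤
      (K + 30 * m) * (K + 29 * m) * (K + 2 * m) ^ 2 := by
  have e : (K + 30 * m) * (K + 29 * m) * (K + 2 * m) ^ 2 =
      (K + 7 * m) * (K + 6 * m) * (K + 5 * m) * (K + 45 * m) +
        m ^ 2 * (193 * K ^ 2 - 1309 * m * K - 5970 * m ^ 2) := by ring
  have a1 : 0 ≤ 193 * K ^ 2 - 1309 * m * K - 5970 * m ^ 2 := by nlinarith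
  have a2 := mul_nonneg (sq_nonneg m) a1
  linarith

theorem rho_le (m k : ℕ) : rho m k ≤ (1 + 1 / 700) ^ (10 * m) * rho m (10 * m) := by
  have hm : (0 : ℝ) ≤ m := Nat.cast_nonneg m
  have hD : ∀ k : ℕ, 0 < ((k : ℝ) + 1 + 30 * m) * (k + 1 + 29 * m) * (k + 1 + 2 * m) ^ 2 :=
    fun k => by positivity
  have up : ∀ k, k + 1 ≤ 10 * m → rho m k ≤ (1 + 1 / 700) * rho m (k + 1) := by
    intro k hk
    have h1 := rho_succ m k
    have h2 : (k : ℝ) + 1 ≤ 10 * m := by exact_mod_cast hk
    refine le_of_mul_le_mul_right ?_ (hD k)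
    rw [mul_assoc (1 + 1 / 700 : ℝ), h1, mul_left_comm (1 + 1 / 700 : ℝ)]
    exact mul_le_mul_of_nonneg_left (poly_up hm (by positivity) h2) (rho_pos _ _).le
  have down : ∀ k, 10 * m ≤ k + 1 → rho m (k + 1) ≤ rho m k := by
    intro k hk
    have h1 := rho_succ m k
    have h2 : (10 : ℝ) * m ≤ k + 1 := by exact_mod_cast hk
    refine le_of_mul_le_mul_right ?_ (hD k)
    rw [h1]
    exact mul_le_mul_of_nonneg_left (poly_down hm h2) (rho_pos _ _).le
  rcases le_total k (10 * m) with h | h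
  · have : ∀ d k, k + d = 10 * m → rho m k ≤ (1 + 1 / 700) ^ d * rho m (10 * m) := by
      intro d
      induction d with
      | zero => intro k hk; rw [← hk]; simp
      | succ d ih =>
        intro k hk
        refine (up k (by omega)).trans ?_
        rw [pow_succ', mul_assoc]
        exact mul_le_mul_of_nonneg_left (ih (k + 1) (by omega)) (by norm_num)
    exact (this (10 * m - k) k (by omega)).trans (mul_le_mul_of_nonneg_right
      (pow_le_pow_right₀ (by norm_num) (by omega)) (rho_pos _ _).le)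
  · have : rho m k ≤ rho m (10 * m) := by
      induction k, h using Nat.le_induction with
      | base => rfl
      | succ k hk ih => exact (down k (by omega)).trans ih
    exact this.trans (le_mul_of_one_le_left (rho_pos _ _).le (one_le_pow₀ (by norm_num)))

theorem log_rho (m : ℕ) : Real.log (rho m (10 * m)) = lf (17 * m) + lf (16 * m) + lf (15 * m)
    + lf (55 * m) - lf (40 * m) - lf (39 * m) - 2 * lf (12 * m) := by
  unfold rho lf
  rw [Real.log_div (by positivity) (by positivity), Real.log_mul (by positivity) (by positivity),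
    Real.log_mul (by positivity) (by positivity), Real.log_mul (by positivity) (by positivity),
    Real.log_mul (by positivity) (by positivity), Real.log_mul (by positivity) (by positivity),
    Real.log_pow,
    show 10 * m + 7 * m = 17 * m by ring, show 10 * m + 6 * m = 16 * m by ring,
    show 10 * m + 5 * m = 15 * m by ring, show 10 * m + 45 * m = 55 * m by ring,
    show 10 * m + 30 * m = 40 * m by ring, show 10 * m + 29 * m = 39 * m by ring,
    show 10 * m + 2 * m = 12 * m by ring]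
  push_cast; ring

theorem log_const : 3168 * Real.log 11 + 1600 * Real.log 5 + 1058 * Real.log 23 +
    680 * Real.log 17 + 441 * Real.log 7 + 4705 * Real.log 2 ≤
    1479 * Real.log 3 + 1560 * Real.log 13 + 3698 * Real.log 43 := by
  have h : (11 : ℕ) ^ 3168 * 5 ^ 1600 * 23 ^ 1058 * 17 ^ 680 * 7 ^ 441 * 2 ^ 4705 ≤
      3 ^ 1479 * 13 ^ 1560 * 43 ^ 3698 := by decide +kernel
  have h' : (((11 : ℕ) ^ 3168 * 5 ^ 1600 * 23 ^ 1058 * 17 ^ 680 * 7 ^ 441 * 2 ^ 4705 : ℕ) : ℝ) ≤
      ((3 ^ 1479 * 13 ^ 1560 * 43 ^ 3698 : ℕ) : ℝ) := Nat.cast_le.2 h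
  simp only [Nat.cast_mul, Nat.cast_pow, Nat.cast_ofNat] at h'
  have := Real.log_le_log (by positivity) h'
  rw [Real.log_mul (by positivity) (by positivity), Real.log_mul (by positivity) (by positivity),
    Real.log_mul (by positivity) (by positivity), Real.log_mul (by positivity) (by positivity),
    Real.log_mul (by positivity) (by positivity), Real.log_mul (by positivity) (by positivity),
    Real.log_mul (by positivity) (by positivity),
    Real.log_pow, Real.log_pow, Real.log_pow, Real.log_pow, Real.log_pow, Real.log_pow,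
    Real.log_pow, Real.log_pow, Real.log_pow] at this
  simpa only [Nat.cast_ofNat] using this

end ArchNum

open ArchNum in
open Caab.ArchNum hiding Lf_mul log_detpr rho rho_pos wbar_eq rho_succ rho_le log_rho log_const in
theorem arch_num : ∀ᶠ m : ℕ in atTop, ∃ r : ℝ, 0 < r ∧ (∀ k, wbar m k ≤ r * wpr m k) ∧
    Real.log (((20 * m).factorial : ℝ) * r ^ (20 * m) * detpr m) ≤
      -420 * (m : ℝ) ^ 2 * Real.log m - 1830 * (m : ℝ) ^ 2 := by
  have hlog : ∀ᶠ m : ℕ in atTop, Real.log m ≤ (m : ℝ) / 1000 := by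
    have h := (Real.isLittleO_log_id_atTop.comp_tendsto
      (tendsto_natCast_atTop_atTop (R := ℝ))).bound (c := 1 / 1000) (by norm_num)
    filter_upwards [h] with m hm
    simp only [Function.comp, id, Real.norm_eq_abs, Nat.abs_cast] at hm
    linarith [le_abs_self (Real.log m)]
  filter_upwards [hlog, eventually_ge_atTop 7000] with m hL hm
  have hm1 : 1 ≤ m := by omega
  have hρ := rho_pos m (10 * m)
  refine ⟨(1 + 1 / 700) ^ (10 * m) * rho m (10 * m), by positivity, fun k => ?_, ?_⟩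
  · rw [wbar_eq]
    exact mul_le_mul_of_nonneg_right (rho_le m k) (by unfold wpr; positivity)
  have hd : 0 < detpr m := by unfold detpr; positivity
  rw [Real.log_mul (by positivity) hd.ne', Real.log_mul (by positivity) (by positivity),
    Real.log_pow, Real.log_mul (by positivity) hρ.ne', Real.log_pow, log_rho, log_detpr]
  have a0 := (lf_mul 20 m (by norm_num) (by norm_num) hm1).2
  have a1 := (lf_mul 17 m (by norm_num) (by norm_num) hm1).2
  have a2 := (lf_mul 16 m (by norm_num) (by norm_num) hm1).2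
  have a3 := (lf_mul 15 m (by norm_num) (by norm_num) hm1).2
  have a4 := (lf_mul 55 m (by norm_num) (by norm_num) hm1).2
  have a5 := (lf_mul 40 m (by norm_num) (by norm_num) hm1).1
  have a6 := (lf_mul 39 m (by norm_num) (by norm_num) hm1).1
  have a7 := (lf_mul 12 m (by norm_num) (by norm_num) hm1).1
  have b1 := (Lf_mul 22 m (by norm_num) (by norm_num) hm1).2
  have b2 := (Lf_mul 2 m (by norm_num) (by norm_num) hm1).1
  have b3 := (Lf_mul 43 m (by norm_num) (by norm_num) hm1).1
  have b4 := (Lf_mul 23 m (by norm_num) (by norm_num) hm1).2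
  have b5 := (Lf_mul 20 m (by norm_num) (by norm_num) hm1).2
  have b6 := (Lf_mul 21 m (by norm_num) (by norm_num) hm1).2
  have b7 := (Lf_mul 1 m (by norm_num) (by norm_num) hm1).1
  have l4 := log_mul' 2 2 4 (by norm_num) (by norm_num) (by norm_num)
  have l8 := log_mul' 4 2 8 (by norm_num) (by norm_num) (by norm_num)
  have l12 := log_mul' 4 3 12 (by norm_num) (by norm_num) (by norm_num)
  have l15 := log_mul' 3 5 15 (by norm_num) (by norm_num) (by norm_num)
  have l16 := log_mul' 4 4 16 (by norm_num) (by norm_num) (by norm_num)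
  have l20 := log_mul' 4 5 20 (by norm_num) (by norm_num) (by norm_num)
  have l21 := log_mul' 3 7 21 (by norm_num) (by norm_num) (by norm_num)
  have l22 := log_mul' 2 11 22 (by norm_num) (by norm_num) (by norm_num)
  have l39 := log_mul' 3 13 39 (by norm_num) (by norm_num) (by norm_num)
  have l40 := log_mul' 8 5 40 (by norm_num) (by norm_num) (by norm_num)
  have l55 := log_mul' 5 11 55 (by norm_num) (by norm_num) (by norm_num)
  have hc := log_const
  have h2 := Real.log_two_gt_d9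
  have h2' := Real.log_two_lt_d9
  have h20 : Real.log 20 ≤ 4 := by
    have k1 : Real.log 20 ≤ Real.log (2 ^ 5) := Real.log_le_log (by norm_num) (by norm_num)
    rw [Real.log_pow] at k1
    push_cast at k1
    linarith
  have hε : Real.log (1 + 1 / 700) ≤ 1 / 700 := by
    have := Real.log_le_sub_one_of_pos (x := 1 + 1 / 700) (by norm_num)
    linarith
  have hm' : (7000 : ℝ) ≤ m := by exact_mod_cast hm
  have hL0 : 0 ≤ Real.log m := Real.log_nonneg (by linarith)
  push_cast at a0 a1 a2 a3 a4 a5 a6 a7 b1 b2 b3 b4 b5 b6 b7 ⊢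
  rw [Real.log_one] at b7
  obtain ⟨L, hLd⟩ : ∃ L, L = Real.log m := ⟨_, rfl⟩
  rw [← hLd] at a0 a1 a2 a3 a4 a5 a6 a7 b1 b2 b3 b4 b5 b6 b7 hL hL0 ⊢
  obtain ⟨Cr, hCr⟩ : ∃ Cr, Cr = 17 * Real.log 17 + 16 * Real.log 16 + 15 * Real.log 15
    + 55 * Real.log 55 - 40 * Real.log 40 - 39 * Real.log 39 - 24 * Real.log 12 := ⟨_, rfl⟩
  obtain ⟨Cd, hCd⟩ : ∃ Cd, Cd = 484 * Real.log 22 - 4 * Real.log 2 - 1849 * Real.log 43
    + 529 * Real.log 23 + 200 * Real.log 20 + 441 / 2 * Real.log 21 + 630 := ⟨_, rfl⟩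
  have hA : Cd + 20 * Cr ≤ -1832.4 := by
    rw [hCr, hCd]; linarith
  have r0 := mul_le_mul_of_nonneg_left hε (by linarith : (0 : ℝ) ≤ 10 * m)
  have r1 : 10 * m * Real.log (1 + 1 / 700) + (lf (17 * m) + lf (16 * m) + lf (15 * m) + lf (55 * m)
      - lf (40 * m) - lf (39 * m) - 2 * lf (12 * m)) ≤ m / 70 + m * Cr + 4 * (L + 7) := by
    rw [hCr]; linarith
  have r2 : 2 * (Lf (22 * m) - Lf (2 * m)) - 2 * (Lf (43 * m) - Lf (23 * m)) + Lf (20 * m)
      + (Lf (21 * m) - Lf (1 * m)) ≤ -420 * m ^ 2 * L + Cd * m ^ 2 + 222 * (m * (L + 7)) := by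
    rw [hCd]; linarith
  have r3 : Real.log ((20 * m).factorial : ℝ) ≤ 21 * (m * (L + 7)) := by
    have : lf (20 * m) = Real.log ((20 * m).factorial : ℝ) := rfl
    have k1 := mul_le_mul_of_nonneg_left h20 (by linarith : (0 : ℝ) ≤ m)
    have k2 := mul_le_mul_of_nonneg_right (by linarith : (1 : ℝ) ≤ m) hL0
    linarith
  have r4 := mul_le_mul_of_nonneg_left r1 (by linarith : (0 : ℝ) ≤ 20 * m)
  have r5 : (m : ℝ) * (L + 7) ≤ m ^ 2 / 500 := by nlinarith
  have r6 := mul_le_mul_of_nonneg_right hA (sq_nonneg (m : ℝ))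
  have r7 := sq_nonneg (m : ℝ)
  linarith

end Pool.Agent.Caab.F5
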