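import Pool.Agent.Lib.MP_caab05_ag.F5.Small

/-! The determinant at the prime 5. -/

namespace Pool.Agent.Caab.F5

open Finset Polynomial

namespace Five

instance fact_five : Fact (Nat.Prime 5) := ⟨by norm_num⟩

theorem val_five : padicValRat 5 (5 : ℚ) = 1 := by
  simpa using padicValRat.self (p := 5) (by norm_num)

theorem V_five : V 5 (5 : ℚ) 1 := V.of_le (by rw [val_five]; simp)

theorem V_fifth {q : ℚ} {z : ℤ} (h : 5 * q = z) : V 5 q (-1) := by
  have : q = z / 5 := by rw [← h]; ring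
  rw [this]
  simpa using (V.int (p := 5) z).div (q' := 5) (s := 1) (by rw [val_five]; simp)

theorem unit_int {z : ℤ} (hz : ¬ (5 : ℤ) ∣ z) : (z : ℚ) ≠ 0 ∧ padicValRat 5 (z : ℚ) = 0 := by
  refine ⟨fun h => hz ?_, ?_⟩
  · have : z = 0 := by exact_mod_cast h
    simp [this]
  · rw [padicValRat.of_int, padicValInt.eq_zero_of_not_dvd (by exact_mod_cast hz)]
    rfl

theorem val_fifth {q : ℚ} {z : ℤ} (h : 5 * q = z) (hz : ¬ (5 : ℤ) ∣ z) :
    q ≠ 0 ∧ padicValRat 5 q = -1 := by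
  have e : q = z / 5 := by rw [← h]; ring
  obtain ⟨h1, h2⟩ := unit_int hz
  refine ⟨by rw [e]; exact div_ne_zero h1 (by norm_num), ?_⟩
  rw [e, padicValRat.div h1 (by norm_num), h2, val_five]
  rfl

theorem val_rf_fifth {a : ℚ} {z : ℤ} (h : 5 * a = z) (hz : ¬ (5 : ℤ) ∣ z) (N : ℕ) :
    padicValRat 5 (rf a N) = -N := by
  have key : ∀ i : ℕ, a + i ≠ 0 ∧ padicValRat 5 (a + i) = -1 := fun i =>
    val_fifth (z := z + 5 * i) (by push_cast; linarith) (by omega)
  rw [rf, val_prod fun i _ => (key i).1, sum_congr rfl fun i _ => (key i).2]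
  simp

/-- divided differences with a valuation growing with the number of points -/
def Gr (Y0 : Finset ℚ) (f : ℚ → ℚ) (s : ℝ) : Prop :=
  ∀ Y ⊆ Y0, V 5 (dd f Y) (s + 2 / 5 * Y.card)

namespace Gr

variable {Y0 : Finset ℚ} {f g : ℚ → ℚ} {s : ℝ}

theorem congr (h : Gr Y0 f s) (hfg : ∀ y ∈ Y0, f y = g y) : Gr Y0 g s := fun Y hY => by
  rw [← dd_congr fun y hy => hfg y (hY hy)]; exact h Y hY

theorem mono {s' : ℝ} (h : Gr Y0 f s) (hs : s' ≤ s) : Gr Y0 f s' :=
  fun Y hY => (h Y hY).mono (by linarith)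

theorem one : Gr Y0 (fun _ => 1) (-2 / 5) := fun Y _ => by
  rcases Y.eq_empty_or_nonempty with rfl | hY
  · simpa [dd] using V.zero _
  have := dd_poly 1 Y (by simpa using hY)
  simp only [eval_one, coeff_one] at this
  rw [this]
  split_ifs with h
  · have h1 : Y.card = 1 := by have := hY.card_pos; omega
    rw [h1]
    exact V.one.mono (by norm_num)
  · exact V.zero _

theorem const_mul {a : ℚ} {t : ℝ} (h : Gr Y0 f s) (ha : V 5 a t) :
    Gr Y0 (fun y => a * f y) (s + t) := fun Y hY => by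
  rw [dd_const_mul]; exact (ha.mul (h Y hY)).mono (by linarith)

theorem mul_lin {u w : ℚ} {t s' : ℝ} (h : Gr Y0 f s) (hu : V 5 u t)
    (hw : ∀ y ∈ Y0, V 5 (u * y + w) 0) (h1 : s' ≤ s) (h2 : s' ≤ s + t - 2 / 5) :
    Gr Y0 (fun y => f y * (u * y + w)) s' := fun Y hY => by
  rcases Y.eq_empty_or_nonempty with rfl | ⟨y0, h0⟩
  · simpa [dd] using V.zero _
  rw [dd_lin f h0]
  have hc : ((Y.erase y0).card : ℝ) + 1 = Y.card := by exact_mod_cast card_erase_add_one h0
  exact ((hu.mul (h _ ((erase_subset _ _).trans hY))).mono (by linarith)).add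
    (((hw y0 (hY h0)).zero_mul' (h Y hY)).mono (by linarith))

theorem div_lin {u w : ℚ} (h : Gr Y0 f s) (hu : V 5 u 1)
    (hw : ∀ y ∈ Y0, u * y + w ≠ 0 ∧ padicValRat 5 (u * y + w) = 0) :
    Gr Y0 (fun y => f y / (u * y + w)) s := fun Y hY => by
  induction Y using Finset.induction_on with
  | empty => simpa [dd] using V.zero _
  | insert y0 Y hy0 ih =>
    have h0 : y0 ∈ insert y0 Y := mem_insert_self _ _
    have h1 := dd_lin (fun y => f y / (u * y + w)) h0 u w
    rw [dd_congr (g := f) (fun y hy => div_mul_cancel₀ _ (hw y (hY hy)).1), erase_insert hy0] at h1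
    have h2 : dd (fun y => f y / (u * y + w)) (insert y0 Y) =
        (dd f (insert y0 Y) - u * dd (fun y => f y / (u * y + w)) Y) / (u * y0 + w) := by
      rw [eq_div_iff (hw y0 (hY h0)).1, h1]; ring
    rw [h2]
    have hc : ((insert y0 Y).card : ℝ) = Y.card + 1 := by exact_mod_cast card_insert_of_notMem hy0
    have h3 := ((h _ hY).sub ((hu.mul (ih ((subset_insert _ _).trans hY))).mono
      (by rw [hc]; linarith))).div (q' := u * y0 + w) (s := 0) (by rw [(hw y0 (hY h0)).2]; simp)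
    simpa using h3

variable (hY : ∀ y ∈ Y0, ∃ z : ℤ, y = z)
include hY

theorem mul_rf_int (h : Gr Y0 f s) (a N : ℕ) :
    Gr Y0 (fun y => f y * rf (y + a) N) (s - 2 / 5 * N) := by
  induction N with
  | zero => simpa using h
  | succ N ih =>
    have := ih.mul_lin (u := 1) (w := a + N) (s' := s - 2 / 5 * (N + 1 : ℕ)) V.one
      (fun y hy => by
        obtain ⟨z, rfl⟩ := hY y hy
        simpa using V.int (p := 5) (z + (a + N)))
      (by push_cast; linarith) (by push_cast; linarith)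
    exact this.congr fun y _ => by rw [rf_succ]; ring

theorem mul_rf_fifth (h : Gr Y0 f s) {a : ℚ} {a' : ℤ} (ha : 5 * a = a') (N : ℕ) :
    Gr Y0 (fun y => f y * rf (y + a) N) (s - N) := by
  induction N with
  | zero => simpa using h
  | succ N ih =>
    have := (ih.mul_lin (u := 5) (w := a' + 5 * N) (s' := s - N) V_five
      (fun y hy => by
        obtain ⟨z, rfl⟩ := hY y hy
        simpa using V.int (p := 5) (5 * z + (a' + 5 * N)))
      le_rfl (by linarith)).const_mul (a := 1 / 5) (V_fifth (z := 1) (by norm_num))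
    refine (this.congr fun y _ => ?_).mono (by push_cast; linarith)
    rw [rf_succ, ← ha]; ring

theorem div_rf_fifth (h : Gr Y0 f s) {a : ℚ} {a' : ℤ} (ha : 5 * a = a') (hz : ¬ (5 : ℤ) ∣ a')
    (N : ℕ) : Gr Y0 (fun y => f y / rf (y + a) N) (s + N) := by
  induction N with
  | zero => simpa using h
  | succ N ih =>
    have := (ih.div_lin (u := 5) (w := a' + 5 * N) V_five
      (fun y hy => by
        obtain ⟨z, rfl⟩ := hY y hy
        simpa using unit_int (z := 5 * z + (a' + 5 * N)) (by omega))).const_mul V_five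
    refine (this.congr fun y _ => ?_).mono (by push_cast; linarith)
    rw [rf_succ, ← ha, show 5 * y + (5 * a + 5 * N) = 5 * (y + a + N) by ring, ← div_div,
      ← div_div]
    ring

end Gr

def al (b c : ℚ) (j : ℕ) : ℚ := 2 * b + 2 * c + j - 1

def be (b c : ℚ) (j : ℕ) : ℚ := -2 * j ^ 2 - j - (b + c) * (3 * j + 2)

def ga (b c : ℚ) (j : ℕ) : ℚ := (j + 1) * ((j + 1 + b) * (j + 1 + c))

/-- the two coefficients of the remainder of the factorial series -/
def uw (b c a1 a2 : ℚ) : ℕ → ℚ × ℚ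
  | 0 => (a1, a2)
  | j + 1 => ((uw b c a1 a2 j).2 - be b c j * ((uw b c a1 a2 j).1 / al b c j),
      -(ga b c j * ((uw b c a1 a2 j).1 / al b c j)))

def err (b c a1 a2 : ℚ) (J : ℕ) (y : ℚ) : ℚ :=
  (uw b c a1 a2 J).1 / rf (y + 1) J + (uw b c a1 a2 J).2 / rf (y + 1) (J + 1)

def ser (b c a1 a2 : ℚ) (J : ℕ) (y : ℚ) : ℚ :=
  ∑ j ∈ range J, (uw b c a1 a2 j).1 / al b c j / rf (y + 1) (j + 1)

theorem expand {b c : ℚ} (a1 a2 : ℚ) (hα : ∀ j, al b c j ≠ 0) {y : ℚ} (hy : ∀ z : ℤ, y + 1 ≠ z)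
    (J : ℕ) : etaF a1 a2 y = (y + b) * (y + c) * ser b c a1 a2 J y -
      (y + 1 - b) * (y + 1 - c) * ser b c a1 a2 J (y + 1) + err b c a1 a2 J y := by
  induction J with
  | zero => simp [ser, err, uw, etaF, rf_succ]
  | succ J ih =>
    rw [ih]
    have n0 : y + 1 ≠ 0 := by simpa using hy 0
    have n1 := rf_ne_zero hy J
    have n2 : y + 1 + J ≠ 0 := fun e => hy (-(J : ℤ)) (by push_cast; linarith)
    have n3 : y + 1 + (J + 1) ≠ 0 := fun e => hy (-(J : ℤ) - 1) (by push_cast; linarith)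
    have e1 := rf_succ (y + 1) J
    have e2 : rf (y + 1) (J + 1 + 1) = rf (y + 1) J * (y + 1 + J) * (y + 1 + (J + 1)) := by
      rw [rf_succ, e1]; push_cast; ring
    have e3 : rf (y + 1 + 1) (J + 1) = rf (y + 1) J * (y + 1 + J) * (y + 1 + (J + 1)) / (y + 1) := by
      rw [← e2, rf_succ' (y + 1) (J + 1)]; field_simp
    have hA : (uw b c a1 a2 J).1 = (uw b c a1 a2 J).1 / al b c J * al b c J :=
      (div_mul_cancel₀ _ (hα J)).symm
    simp only [ser, err, uw, sum_range_succ]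
    generalize (uw b c a1 a2 J).1 / al b c J = x at hA ⊢
    rw [hA, e3, e2, e1]
    simp only [al, be, ga]
    field_simp
    ring

theorem V_uw {b c : ℚ} {B C : ℤ} (hB : 5 * b = B) (hC : 5 * c = C) (hBC : ¬ (5 : ℤ) ∣ B + C)
    (a1 a2 : ℤ) (j : ℕ) : V 5 (uw b c a1 a2 j).1 (-(((2 * j + 2) / 5 : ℕ) : ℝ)) ∧
      V 5 (uw b c a1 a2 j).2 (-(((2 * j + 4) / 5 : ℕ) : ℝ)) := by
  induction j with
  | zero => exact ⟨by simpa [uw] using V.int a1, by simpa [uw] using V.int a2⟩
  | succ j ih =>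
    have hα := (val_fifth (q := al b c j) (z := 2 * (B + C) + 5 * j - 5)
      (by rw [al]; push_cast; linarith) (by omega)).2
    have hx := ih.1.div (q' := al b c j) (s := -1) (by rw [hα]; simp)
    have hβ : V 5 (be b c j) (-1) := V_fifth (z := -10 * j ^ 2 - 5 * j - (B + C) * (3 * j + 2))
      (by rw [be]; push_cast; rw [← hB, ← hC]; ring)
    have hγ : V 5 ((j + 1 + b) * (j + 1 + c)) (-1 + -1) :=
      (V_fifth (z := 5 * j + 5 + B) (by push_cast; linarith)).mul
        (V_fifth (z := 5 * j + 5 + C) (by push_cast; linarith))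
    simp only [uw]
    constructor
    · refine (ih.2.mono (le_of_eq (by congr 3))).sub ((hβ.mul hx).mono ?_)
      have : (((2 * j + 2) / 5 : ℕ) : ℝ) ≤ (((2 * (j + 1) + 2) / 5 : ℕ) : ℝ) := by
        exact_mod_cast (by omega)
      linarith
    · by_cases h5 : 5 ∣ j + 1
      · obtain ⟨t, ht⟩ := h5
        have h1 : V 5 ((j : ℚ) + 1) 1 := by
          have : (j : ℚ) + 1 = 5 * t := by exact_mod_cast ht
          rw [this]
          exact V_five.mul0 (V.nat t)
        refine ((h1.mul hγ).mul hx).neg.mono ?_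
        have : (((2 * j + 2) / 5 : ℕ) : ℝ) ≤ (((2 * (j + 1) + 4) / 5 : ℕ) : ℝ) := by
          exact_mod_cast (by omega)
        linarith
      · have h1 : V 5 ((j : ℚ) + 1) 0 := by simpa using V.nat (p := 5) (j + 1)
        refine ((h1.mul hγ).mul hx).neg.mono ?_
        have h6 : j % 5 = 0 ∨ j % 5 = 1 ∨ j % 5 = 2 ∨ j % 5 = 3 := by omega
        have h7 : (2 * j + 2) / 5 + 1 ≤ (2 * (j + 1) + 4) / 5 := by
          rcases h6 with h | h | h | h <;> omega
        have : (((2 * j + 2) / 5 : ℕ) : ℝ) + 1 ≤ (((2 * (j + 1) + 4) / 5 : ℕ) : ℝ) := by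
          exact_mod_cast h7
        linarith

theorem ints {b c : ℚ} (hbc : BC b c) : ∃ B C : ℤ, 5 * b = B ∧ 5 * c = C ∧ ¬ (5 : ℤ) ∣ B ∧
    ¬ (5 : ℤ) ∣ C ∧ ¬ (5 : ℤ) ∣ B + C := by
  rcases hbc with ⟨rfl, rfl⟩ | ⟨rfl, rfl⟩ | ⟨rfl, rfl⟩ | ⟨rfl, rfl⟩
  · exact ⟨-2, -1, by norm_num⟩
  · exact ⟨-4, -2, by norm_num⟩
  · exact ⟨-1, -3, by norm_num⟩
  · exact ⟨-3, -4, by norm_num⟩

theorem entry {b c : ℚ} (hbc : BC b c) (m : ℕ) (a1 a2 : ℤ) {i i' : ℕ} (hi : i < 20 * m)
    (hi' : i' < 20 * m) :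
    V 5 (LL b c m (etaF a1 a2) (fun y => rf (y + 0) i * rf (y + 0) i'))
      (48 * m + 3 / 5 - 2 / 5 * (7 * m + i + i')) := by
  have hP := par_of hbc
  obtain ⟨B, C, hB, hC, nB, nC, nBC⟩ := ints hbc
  have hα : ∀ j, al b c j ≠ 0 ∧ padicValRat 5 (al b c j) = -1 := fun j =>
    val_fifth (z := 2 * (B + C) + 5 * j - 5) (by rw [al]; push_cast; linarith) (by omega)
  set R : ℚ → ℚ := fun y => rf (y + 0) i * rf (y + 0) i' with hR
  set K : ℚ × ℕ → ℚ := fun q =>
    ZZ b c m q.1 * piS b c q.2 q.1 * R q.1 / ∏ z ∈ (SS b c m).erase q.1, (q.1 - z) with hK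
  obtain ⟨C0, hC0⟩ := (((SS b c m ×ˢ range (30 * m)).finite_toSet).image
    (fun q => (padicValRat 5 (K q) : ℝ))).bddBelow
  obtain ⟨J, hJ⟩ := exists_nat_ge (2 * (48 * m + 2 - C0))
  have e0 : LL b c m (etaF a1 a2) R =
      ∑ j ∈ range J, (uw b c a1 a2 j).1 / al b c j *
        dd (fun y => ZZ b c m y * R y / rf (y + 1) (j + 1)) (SS b c m) +
      ∑ y ∈ SS b c m, ∑ s ∈ range (30 * m), K (y, s) * err b c a1 a2 J (y + s) := by
    have e1 : ∀ y ∈ SS b c m, XX b c m (etaF a1 a2) y =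
        ser b c a1 a2 J y + XX b c m (err b c a1 a2 J) y := by
      intro y hy
      rw [← hP.tele hy (ser b c a1 a2 J)]
      simp only [XX, ← sum_add_distrib, ← mul_add]
      refine sum_congr rfl fun s _ => ?_
      rw [expand (b := b) (c := c) a1 a2 (fun j => (hα j).1) (y := y + s)
        (fun z e => hP.add_one_ne hy (z - s) (by push_cast; linarith)) J]
    simp only [← dd_const_mul]
    rw [← dd_sum, LL, dd, dd, ← sum_add_distrib]
    refine sum_congr rfl fun y hy => ?_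
    rw [e1 y hy, ser, XX, mul_add, add_mul, add_div, mul_sum, sum_mul, mul_sum, sum_mul, sum_div,
      sum_div]
    congr 1
    · rw [sum_div]
      exact sum_congr rfl fun j _ => by ring
    · exact sum_congr rfl fun s _ => by simp only [hK]; ring
  rw [e0]
  refine (V.sum fun j _ => ?_).add (V.sum fun y hy => V.sum fun s hs => ?_)
  · have hd : Disjoint (SS b c m) (Sset 0 (j + 1)) := by
      rw [SS, disjoint_union_left]
      exact ⟨disjoint_Sset (by simpa using hP.hc) _ _, disjoint_Sset (by simpa using hP.hb) _ _⟩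
    have h1 := dd_union (fun y => ZZ b c m y * R y) hd
    have h2 := dd_poly_eq_zero (rfP 1 (7 * m) * rfP b (6 * m) * rfP c (5 * m) *
      (rfP 0 i * rfP 0 i')) (SS b c m ∪ Sset 0 (j + 1)) (by
        rw [card_union_of_disjoint hd, hP.card_SS, card_Sset,
          (((rfP_monic _ _).mul (rfP_monic _ _)).mul (rfP_monic _ _)).natDegree_mul
            ((rfP_monic _ _).mul (rfP_monic _ _)),
          ((rfP_monic _ _).mul (rfP_monic _ _)).natDegree_mul (rfP_monic _ _),
          (rfP_monic _ _).natDegree_mul (rfP_monic _ _),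
          (rfP_monic _ _).natDegree_mul (rfP_monic _ _)]
        simp only [rfP_natDegree]
        omega)
    simp only [eval_mul, rfP_eval] at h2
    have h3 : dd (fun y => ZZ b c m y * R y / rf (y + 1) (j + 1)) (SS b c m) =
        -dd (fun y => ZZ b c m y * R y / ∏ z ∈ SS b c m, (y - z)) (Sset 0 (j + 1)) := by
      simp only [prod_sub_Sset, sub_zero] at h1
      have h4 : dd (fun y => ZZ b c m y * R y) (SS b c m ∪ Sset 0 (j + 1)) = 0 := h2
      linarith
    have hY : ∀ y ∈ Sset 0 (j + 1), ∃ z : ℤ, y = z := fun y hy => by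
      obtain ⟨t, -, rfl⟩ := mem_Sset.1 hy
      exact ⟨-1 - t, by push_cast; ring⟩
    have g := (Gr.div_rf_fifth hY (Gr.div_rf_fifth hY (Gr.mul_rf_int hY (Gr.mul_rf_int hY
      (Gr.mul_rf_fifth hY (Gr.mul_rf_fifth hY (Gr.mul_rf_int hY Gr.one 1 (7 * m)) hB (6 * m))
        hC (5 * m)) 0 i) 0 i') (a := 1 - c) (a' := 5 - C) (by push_cast; linarith) (by omega)
          (30 * m)) (a := 1 - b) (a' := 5 - B) (by push_cast; linarith) (by omega) (29 * m)).congr
      (g := fun y => ZZ b c m y * R y / ∏ z ∈ SS b c m, (y - z)) (fun y _ => by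
        rw [SS, prod_union (hP.disj m), prod_sub_Sset, prod_sub_Sset, div_div]
        simp only [ZZ, hR, add_sub_assoc, Nat.cast_one, Nat.cast_zero]
        ring)
    have g1 := (g _ Subset.rfl).neg
    rw [← h3, card_Sset] at g1
    have hx := (V_uw hB hC nBC a1 a2 j).1.div (q' := al b c j) (s := -1) (by rw [(hα j).2]; simp)
    refine (hx.mul g1).mono ?_
    have : (((2 * j + 2) / 5 : ℕ) : ℝ) ≤ (2 * j + 2) / 5 := by
      exact_mod_cast Nat.cast_div_le (α := ℝ) (m := 2 * j + 2) (n := 5)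
    push_cast
    linarith
  · have h1 : V 5 (K (y, s)) C0 := V.of_le (hC0 ⟨(y, s), by simpa using ⟨hy, mem_range.1 hs⟩, rfl⟩)
    obtain ⟨Y, hY, nY⟩ : ∃ Y : ℤ, 5 * (y + s + 1) = Y ∧ ¬ (5 : ℤ) ∣ Y := by
      rcases mem_SS.1 hy with ⟨t, -, rfl⟩ | ⟨t, -, rfl⟩
      · exact ⟨C - 5 * t + 5 * s, by push_cast; linarith, by omega⟩
      · exact ⟨B - 5 * t + 5 * s, by push_cast; linarith, by omega⟩
    obtain ⟨u1, u2⟩ := V_uw hB hC nBC a1 a2 J
    have k1 : (((2 * J + 2) / 5 : ℕ) : ℝ) ≤ (2 * J + 2) / 5 := by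
      exact_mod_cast Nat.cast_div_le (α := ℝ) (m := 2 * J + 2) (n := 5)
    have k2 : (((2 * J + 4) / 5 : ℕ) : ℝ) ≤ (2 * J + 4) / 5 := by
      exact_mod_cast Nat.cast_div_le (α := ℝ) (m := 2 * J + 4) (n := 5)
    have hJ0 : (0 : ℝ) ≤ J := by positivity
    have h2 : V 5 (err b c a1 a2 J (y + s)) (J / 2 - 1) :=
      ((u1.div (s := -J) (by rw [val_rf_fifth hY nY]; simp)).mono (by linarith)).add
        ((u2.div (s := -(J + 1)) (by rw [val_rf_fifth hY nY]; simp)).mono (by linarith))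
    refine (h1.mul h2).mono ?_
    have : (0 : ℝ) ≤ 7 * m + i + i' := by positivity
    linarith

end Five

theorem five (b c : ℚ) (hbc : BC b c) (m : ℕ) (a1 a2 : ℤ) :
    V 5 (DD b c a1 a2 m) (744 * (m : ℝ) ^ 2) := by
  have h := V_DD (p := 5) (b := b) (c := c) (a1 := a1) (a2 := a2) (m := m) (fun i => rfP 0 i)
    (fun i _ => rfP_monic _ _) (fun i _ => rfP_natDegree _ _)
    (fun i => 24 * m + 3 / 10 - 7 / 5 * m - 2 / 5 * i) (by
      intro i hi j hj
      simp only [rfP_eval]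
      exact (Five.entry hbc m a1 a2 hi hj).mono (le_of_eq (by ring)))
  refine h.mono ?_
  have hm' : (0 : ℝ) ≤ m := by positivity
  simp only [sum_sub_distrib, ← mul_sum, sum_const, card_range, nsmul_eq_mul, Small.sum_id]
  push_cast
  nlinarith

end Pool.Agent.Caab.F5
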