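import Pool.Agent.Lib.MP_caab05_ag.F5.Defs
import Pool.Agent.Shared.PNTAP

/-!
Weighted prime sums in the progressions modulo 5.
-/

namespace Pool.Agent.Caab.F5

open Finset Filter Topology

namespace PSum

/-- the summatory function over primes `p ≡ a (mod 5)`, `p ≤ N` -/
noncomputable def FF (a : ℕ) (f : ℕ → ℝ) (N : ℕ) : ℝ :=
  ∑ p ∈ (Ioc 0 N).filter (fun p : ℕ => p.Prime ∧ p % 5 = a), f p

lemma FF_succ (a : ℕ) (f : ℕ → ℝ) (N : ℕ) :
    FF a f (N + 1) = FF a f N + if (N + 1).Prime ∧ (N + 1) % 5 = a then f (N + 1) else 0 := by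
  unfold FF
  rw [sum_filter, sum_filter, sum_Ioc_succ_top (Nat.zero_le N)]

lemma sum_split (a : ℕ) (f : ℕ → ℝ) {x y z : ℕ} (hxy : x ≤ y) (hyz : y ≤ z) :
    ∑ p ∈ (Ioc x z).filter (fun p : ℕ => p.Prime ∧ p % 5 = a), f p =
      ∑ p ∈ (Ioc x y).filter (fun p : ℕ => p.Prime ∧ p % 5 = a), f p +
      ∑ p ∈ (Ioc y z).filter (fun p : ℕ => p.Prime ∧ p % 5 = a), f p := by
  rw [sum_filter, sum_filter, sum_filter, sum_Ioc_consecutive _ hxy hyz]

lemma psum_eq (a : ℕ) {x y : ℝ} (hxy : x ≤ y) (f : ℕ → ℝ) :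
    psum a x y f = FF a f ⌊y⌋₊ - FF a f ⌊x⌋₊ := by
  unfold psum FF
  rw [sum_split a f (Nat.zero_le ⌊x⌋₊) (Nat.floor_mono hxy)]
  ring

lemma abel (a N : ℕ) :
    FF a (fun p => (p : ℝ) * Real.log p) N =
      N * FF a (fun p => Real.log p) N - ∑ k ∈ range N, FF a (fun p => Real.log p) k := by
  induction N with
  | zero => simp [FF]
  | succ N ih =>
    rw [FF_succ, FF_succ, sum_range_succ, ih]
    split_ifs <;> push_cast <;> ring

lemma th_tendsto (a : ℕ) (ha : a = 1 ∨ a = 2 ∨ a = 3 ∨ a = 4) :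
    Tendsto (fun N : ℕ => FF a (fun p => Real.log p) N / (N : ℝ)) atTop (𝓝 (1 / 4)) := by
  have hu : IsUnit ((a : ℕ) : ZMod 5) := by
    rw [ZMod.isUnit_iff_coprime]
    rcases ha with rfl | rfl | rfl | rfl <;> decide
  have h := (Pool.Agent.Shared.PNTAP.theta_ap hu).comp tendsto_natCast_atTop_atTop
  have ht : ((Nat.totient 5 : ℕ) : ℝ)⁻¹ = 1 / 4 := by
    have : Nat.totient 5 = 4 := by decide
    rw [this]; norm_num
  rw [ht] at h
  refine h.congr (fun N => ?_)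
  simp only [Function.comp, Pool.Agent.Shared.PNTAP.thetaAP, FF, Nat.floor_natCast]
  congr 1
  refine sum_congr ?_ (fun _ _ => rfl)
  refine filter_congr (fun p _ => ?_)
  have ha5 : a % 5 = a := by rcases ha with rfl | rfl | rfl | rfl <;> rfl
  rw [ZMod.natCast_eq_natCast_iff', ha5]

lemma S_tendsto (a : ℕ) (ha : a = 1 ∨ a = 2 ∨ a = 3 ∨ a = 4) :
    Tendsto (fun N : ℕ => FF a (fun p => (p : ℝ) * Real.log p) N / (N : ℝ) ^ 2) atTop
      (𝓝 (1 / 8)) := by
  have h1 := th_tendsto a ha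
  have h2 : (fun k : ℕ => FF a (fun p => Real.log p) k - (k : ℝ) / 4) =o[atTop]
      (fun k : ℕ => (k : ℝ)) := by
    rw [Asymptotics.isLittleO_iff_tendsto']
    · have := h1.sub_const (1 / 4)
      rw [sub_self] at this
      refine this.congr' ?_
      filter_upwards [eventually_gt_atTop 0] with k hk
      have : (k : ℝ) ≠ 0 := by positivity
      field_simp
    · filter_upwards [eventually_gt_atTop 0] with k hk h
      exact absurd h (by positivity)
  have hsum : ∀ N : ℕ, ∑ k ∈ range N, (k : ℝ) = N * (N - 1) / 2 := by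
    intro N
    induction N with
    | zero => simp
    | succ N ih => rw [sum_range_succ, ih]; push_cast; ring
  have hinf : Tendsto (fun N : ℕ => ∑ k ∈ range N, (k : ℝ)) atTop atTop := by
    refine tendsto_atTop_mono' atTop ?_ (tendsto_natCast_atTop_atTop (R := ℝ))
    filter_upwards [eventually_ge_atTop 3] with N hN
    rw [hsum]
    have : (3 : ℝ) ≤ N := by exact_mod_cast hN
    nlinarith
  have h3 := h2.sum_range (fun k => Nat.cast_nonneg k) hinf
  have h4 : (fun N : ℕ => ∑ k ∈ range N, (k : ℝ)) =O[atTop] (fun N : ℕ => (N : ℝ) ^ 2) := by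
    refine Asymptotics.IsBigO.of_bound 1 (Eventually.of_forall fun N => ?_)
    rw [Real.norm_of_nonneg (sum_nonneg fun k _ => Nat.cast_nonneg k),
      Real.norm_of_nonneg (by positivity), hsum]
    have : (0 : ℝ) ≤ N := Nat.cast_nonneg N
    nlinarith
  have h5 := (h3.trans_isBigO h4).tendsto_div_nhds_zero
  have h6 : Tendsto (fun N : ℕ => (1 : ℝ) / 8 * ((N : ℝ))⁻¹) atTop (𝓝 (1 / 8 * 0)) :=
    (tendsto_inv_atTop_nhds_zero_nat (𝕜 := ℝ)).const_mul _
  have h7 := ((h1.sub h5).sub_const (1 / 8)).add h6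
  have e : (1 : ℝ) / 4 - 0 - 1 / 8 + 1 / 8 * 0 = 1 / 8 := by norm_num
  rw [e] at h7
  refine h7.congr' ?_
  filter_upwards [eventually_gt_atTop 0] with N hN
  have hN' : (N : ℝ) ≠ 0 := by positivity
  rw [abel, sum_sub_distrib, ← sum_div, hsum]
  field_simp
  ring

lemma comp_floor {F : ℕ → ℝ} {c : ℝ} (e : ℕ) (he : 0 < e) (hF0 : F 0 = 0)
    (hF : Tendsto (fun N : ℕ => F N / (N : ℝ) ^ e) atTop (𝓝 c)) {w : ℝ} (hw : 0 ≤ w) :
    Tendsto (fun m : ℕ => F ⌊w * m⌋₊ / (m : ℝ) ^ e) atTop (𝓝 (c * w ^ e)) := by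
  rcases hw.eq_or_lt with rfl | hw'
  · simp [hF0, he.ne']
  · have h1 : Tendsto (fun m : ℕ => ⌊w * m⌋₊) atTop atTop := tendsto_nat_floor_mul_atTop w hw'
    have h2 : Tendsto (fun m : ℕ => (⌊w * m⌋₊ : ℝ) / m) atTop (𝓝 w) :=
      (tendsto_nat_floor_mul_div_atTop hw).comp tendsto_natCast_atTop_atTop
    refine ((hF.comp h1).mul (h2.pow e)).congr' ?_
    filter_upwards [h1.eventually (eventually_gt_atTop 0)] with m hm
    have : ((⌊w * m⌋₊ : ℕ) : ℝ) ≠ 0 := by positivity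
    simp only [Function.comp]
    rw [div_pow]
    field_simp

lemma FF_lin (a : ℕ) (A B : ℝ) (N : ℕ) :
    FF a (fun p => (A + B * p) * Real.log p) N =
      A * FF a (fun p => Real.log p) N + B * FF a (fun p => (p : ℝ) * Real.log p) N := by
  unfold FF
  rw [mul_sum, mul_sum, ← sum_add_distrib]
  exact sum_congr rfl fun p _ => by ring

lemma one_side (a : ℕ) (ha : a = 1 ∨ a = 2 ∨ a = 3 ∨ a = 4) (α β C : ℝ) {w : ℝ} (hw : 0 ≤ w) :
    Tendsto (fun m : ℕ =>
      FF a (fun p => (α * m + β * p - C) * Real.log p) ⌊w * m⌋₊ / (m : ℝ) ^ 2) atTop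
      (𝓝 (α * w / 4 + β * w ^ 2 / 8)) := by
  have h1 := comp_floor (F := FF a (fun p => Real.log p)) (c := 1 / 4) 1 one_pos (by simp [FF])
    (by simpa using th_tendsto a ha) hw
  have h2 := comp_floor 2 two_pos (by simp [FF]) (S_tendsto a ha) hw
  have h3 : Tendsto (fun m : ℕ => α - C * ((m : ℝ))⁻¹) atTop (𝓝 (α - C * 0)) :=
    ((tendsto_inv_atTop_nhds_zero_nat (𝕜 := ℝ)).const_mul C).const_sub α
  have h4 := (h3.mul h1).add (h2.const_mul β)
  have e : (α - C * 0) * (1 / 4 * w ^ 1) + β * (1 / 8 * w ^ 2) = α * w / 4 + β * w ^ 2 / 8 := by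
    ring
  rw [e] at h4
  refine h4.congr' ?_
  filter_upwards [eventually_gt_atTop 0] with m hm
  have hm' : (m : ℝ) ≠ 0 := by positivity
  have : (fun p : ℕ => (α * m + β * p - C) * Real.log p) =
      fun p : ℕ => ((α * m - C) + β * p) * Real.log p := by
    funext p; ring
  rw [this, FF_lin]
  field_simp

end PSum

theorem psum_add (a : ℕ) (x y z : ℝ) (hxy : x ≤ y) (hyz : y ≤ z) (f : ℕ → ℝ) :
    psum a x z f = psum a x y f + psum a y z f :=
  PSum.sum_split a f (Nat.floor_mono hxy) (Nat.floor_mono hyz)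

theorem psum_tendsto (a : ℕ) (ha : a = 1 ∨ a = 2 ∨ a = 3 ∨ a = 4) (w1 w2 α β C : ℝ)
    (h0 : 0 ≤ w1) (h12 : w1 ≤ w2) :
    Tendsto (fun m : ℕ => psum a (w1 * m) (w2 * m)
        (fun p => (α * m + β * p - C) * Real.log p) / (m : ℝ) ^ 2) atTop
      (𝓝 (α * (w2 - w1) / 4 + β * (w2 ^ 2 - w1 ^ 2) / 8)) := by
  have h := (PSum.one_side a ha α β C (h0.trans h12)).sub (PSum.one_side a ha α β C h0)
  have e : α * w2 / 4 + β * w2 ^ 2 / 8 - (α * w1 / 4 + β * w1 ^ 2 / 8) =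
      α * (w2 - w1) / 4 + β * (w2 ^ 2 - w1 ^ 2) / 8 := by ring
  rw [e] at h
  refine h.congr (fun m => ?_)
  rw [PSum.psum_eq a (mul_le_mul_of_nonneg_right h12 (Nat.cast_nonneg m)), sub_div]

end Pool.Agent.Caab.F5
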