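import Pool.Agent.Lib.MP_caab05_ag.F5.MidCert
import Pool.Agent.Lib.MP_caab05_ag.F5.PSum

/-!
The middle range of primes (MP_caab05_ag, job 8).
-/

namespace Pool.Agent.Caab.F5

open Finset Filter Topology

namespace Mid

section

variable {nb nc kb kc : ℤ} (hn : KK nb nc) (hk : KK kb kc)
  {a : ℕ} (ha : a = 1 ∨ a = 2 ∨ a = 3 ∨ a = 4)
  (hab : (5 : ℤ) ∣ kb * a - nb) (hac : (5 : ℤ) ∣ kc * a - nc) {v : ℕ → ℕ → ℝ}
  (hv : ∀ m p : ℕ, 1 ≤ m → p.Prime → 30 ≤ p → 160 * m < p ^ 2 → ∀ β γ : ℤ,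
    5 * β = kb * p - nb → 5 * γ = kc * p - nc →
      ∀ lam : ℤ, lam ≤ 0 → (ebound kb kc β γ p m lam : ℝ) ≤ v m p)

include hn hk ha hab hac hv

lemma row_lower (r : Row) (hr : rowOK kb kc r = true) :
    ∃ F : ℕ → ℝ, Tendsto (fun m : ℕ => F m / (m : ℝ) ^ 2) atTop (𝓝 (rowVal kb kc r : ℝ)) ∧
      ∀ᶠ m : ℕ in atTop, F m ≤ psum a ((r.1 : ℝ) / r.2.1 * m) ((r.2.2.1 : ℝ) / r.2.2.2.1 * m)
        (fun p => v m p * Real.log p) := by
  obtain ⟨n1, d1, n2, d2, lam, bs⟩ := r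
  simp only [rowOK, Bool.and_eq_true, decide_eq_true_eq] at hr
  obtain ⟨⟨⟨⟨⟨⟨hd1, hd2⟩, hlam⟩, h3⟩, h12⟩, -⟩, hok⟩ := hr
  obtain ⟨C, hC⟩ := row_spec hd1 hd2 hlam bs hok
  have hd1' : (0 : ℝ) < d1 := by exact_mod_cast hd1
  have hd2' : (0 : ℝ) < d2 := by exact_mod_cast hd2
  have hw1 : (4 : ℝ) ≤ (n1 : ℝ) / d1 := by
    rw [le_div_iff₀ hd1']
    exact_mod_cast h3
  have hw12 : (n1 : ℝ) / d1 ≤ (n2 : ℝ) / d2 := by
    rw [div_le_div_iff₀ hd1' hd2']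
    exact_mod_cast h12
  set U := cellsU kb kc (d1 + d2) (n1 + n2) lam (0, 0) bs with hU
  set W := cellsV kb kc (d1 + d2) (n1 + n2) lam (0, 0) bs with hW
  refine ⟨fun m : ℕ => psum a ((n1 : ℝ) / d1 * m) ((n2 : ℝ) / d2 * m)
    (fun p => (((100 * lam - U : ℤ) : ℝ) / 5 * m + ((-W : ℤ) : ℝ) / 5 * p - (C : ℝ) / 5) *
      Real.log p), ?_, ?_⟩
  · have h := psum_tendsto a ha ((n1 : ℝ) / d1) ((n2 : ℝ) / d2) (((100 * lam - U : ℤ) : ℝ) / 5)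
      (((-W : ℤ) : ℝ) / 5) ((C : ℝ) / 5) (by linarith) hw12
    convert h using 2
    simp only [rowVal, ← hU, ← hW]
    push_cast
    ring
  · filter_upwards [eventually_ge_atTop 40] with m hm
    unfold psum
    refine sum_le_sum fun p hp => ?_
    simp only [mem_filter, mem_Ioc] at hp
    obtain ⟨⟨hp1, hp2⟩, hpp, hpa⟩ := hp
    have hm0 : (0 : ℝ) ≤ m := by positivity
    have hlo : (n1 : ℝ) / d1 * m < p := (Nat.floor_lt (by positivity)).1 hp1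
    have hhi : (p : ℝ) ≤ (n2 : ℝ) / d2 * m :=
      (Nat.le_floor_iff (mul_nonneg (by linarith) hm0)).1 hp2
    have h3m : 4 * m < p := by
      have : (4 : ℝ) * m < p := lt_of_le_of_lt (mul_le_mul_of_nonneg_right hw1 hm0) hlo
      exact_mod_cast this
    have e1 : n1 * m ≤ d1 * p := by
      rw [div_mul_eq_mul_div, div_lt_iff₀ hd1'] at hlo
      have : (n1 : ℝ) * m ≤ d1 * p := by linarith
      exact_mod_cast this
    have e2 : d2 * p ≤ n2 * m := by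
      rw [div_mul_eq_mul_div, le_div_iff₀ hd2'] at hhi
      have : (d2 : ℝ) * p ≤ n2 * m := by linarith
      exact_mod_cast this
    have hβ : 5 * ((kb * p - nb) / 5) = kb * p - nb := by
      rcases hk with ⟨rfl, rfl⟩ | ⟨rfl, rfl⟩ | ⟨rfl, rfl⟩ | ⟨rfl, rfl⟩ <;> omega
    have hγ : 5 * ((kc * p - nc) / 5) = kc * p - nc := by
      rcases hk with ⟨rfl, rfl⟩ | ⟨rfl, rfl⟩ | ⟨rfl, rfl⟩ | ⟨rfl, rfl⟩ <;> omega
    generalize (kb * p - nb) / 5 = β at hβ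
    generalize (kc * p - nc) / 5 = γ at hγ
    have hn' : 1 ≤ nb ∧ nb ≤ 4 ∧ 1 ≤ nc ∧ nc ≤ 4 := by
      rcases hn with ⟨rfl, rfl⟩ | ⟨rfl, rfl⟩ | ⟨rfl, rfl⟩ | ⟨rfl, rfl⟩ <;> omega
    have H : Hyp kb kc β γ p m :=
      ⟨hk, by omega, h3m.le, by linarith [hn'.2.1], by linarith [hn'.1], by linarith [hn'.2.2.2],
        by linarith [hn'.2.2.1]⟩
    have k1 := hC β γ p m H e1 e2
    have k2 := hv m p (by omega) hpp (by omega) (by nlinarith) β γ hβ hγ lam hlam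
    have k3 : (((100 * lam - U) * m - W * p - C : ℤ) : ℝ) ≤
        ((5 * ebound kb kc β γ p m lam : ℤ) : ℝ) := by exact_mod_cast k1
    refine mul_le_mul_of_nonneg_right ?_ (Real.log_natCast_nonneg p)
    push_cast at k3 ⊢
    linarith

lemma chain_lower (rs : List Row) : ∀ n d : ℤ, chainOK kb kc n d rs = true →
    (n : ℝ) / d ≤ 160 ∧ ∃ F : ℕ → ℝ,
      Tendsto (fun m : ℕ => F m / (m : ℝ) ^ 2) atTop (𝓝 (chainVal kb kc rs : ℝ)) ∧
      ∀ᶠ m : ℕ in atTop, F m ≤ psum a ((n : ℝ) / d * m) (160 * m)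
        (fun p => v m p * Real.log p) := by
  induction rs with
  | nil =>
    intro n d h
    simp only [chainOK, Bool.and_eq_true, decide_eq_true_eq] at h
    obtain ⟨rfl, rfl⟩ := h
    refine ⟨by norm_num, fun _ => 0, by simp [chainVal], Eventually.of_forall fun m => ?_⟩
    simp [psum]
  | cons r rs ih =>
    intro n d h
    simp only [chainOK, Bool.and_eq_true, decide_eq_true_eq] at h
    obtain ⟨⟨⟨rfl, rfl⟩, hr⟩, hrs⟩ := h
    obtain ⟨hle, F2, t2, e2⟩ := ih _ _ hrs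
    obtain ⟨F1, t1, e1⟩ := row_lower hn hk ha hab hac hv r hr
    have hw12 : (r.1 : ℝ) / r.2.1 ≤ (r.2.2.1 : ℝ) / r.2.2.2.1 := by
      obtain ⟨n1, d1, n2, d2, lam, bs⟩ := r
      simp only [rowOK, Bool.and_eq_true, decide_eq_true_eq] at hr
      obtain ⟨⟨⟨⟨⟨⟨hd1, hd2⟩, -⟩, -⟩, h12⟩, -⟩, -⟩ := hr
      have hd1' : (0 : ℝ) < d1 := by exact_mod_cast hd1
      have hd2' : (0 : ℝ) < d2 := by exact_mod_cast hd2
      show (n1 : ℝ) / d1 ≤ (n2 : ℝ) / d2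
      rw [div_le_div_iff₀ hd1' hd2']
      exact_mod_cast h12
    refine ⟨hw12.trans hle, fun m => F1 m + F2 m, ?_, ?_⟩
    · have := t1.add t2
      simp only [chainVal, Rat.cast_add]
      refine this.congr fun m => ?_
      rw [add_div]
    · filter_upwards [e1, e2] with m h1 h2
      have hm0 : (0 : ℝ) ≤ m := by positivity
      rw [psum_add a _ ((r.2.2.1 : ℝ) / r.2.2.2.1 * m) _ (mul_le_mul_of_nonneg_right hw12 hm0)
        (mul_le_mul_of_nonneg_right hle hm0)]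
      exact add_le_add h1 h2

lemma final (rs : List Row) (hok : chainOK kb kc 4 1 rs = true) (c : ℝ)
    (hlt : c < (chainVal kb kc rs : ℝ)) :
    ∀ᶠ m : ℕ in atTop, c * (m : ℝ) ^ 2 ≤ psum a (4 * m) (160 * m)
      (fun p => v m p * Real.log p) := by
  obtain ⟨-, F, t, e⟩ := chain_lower hn hk ha hab hac hv rs 4 1 hok
  filter_upwards [e, t.eventually (lt_mem_nhds hlt), eventually_ge_atTop 1] with m h1 h2 h3
  have hm : (0 : ℝ) < (m : ℝ) ^ 2 := by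
    have : (0 : ℝ) < m := by exact_mod_cast h3
    positivity
  rw [lt_div_iff₀ hm] at h2
  have e3 : (((4 : ℤ) : ℝ) / ((1 : ℤ) : ℝ)) = 4 := by norm_num
  rw [e3] at h1
  linarith

end

end Mid

theorem mid (nb nc kb kc : ℤ) (hn : KK nb nc) (hk : KK kb kc)
    (a : ℕ) (ha : a = 1 ∨ a = 2 ∨ a = 3 ∨ a = 4) (hab : (5 : ℤ) ∣ kb * a - nb)
    (hac : (5 : ℤ) ∣ kc * a - nc) (v : ℕ → ℕ → ℝ)
    (hv : ∀ m p : ℕ, 1 ≤ m → p.Prime → 30 ≤ p → 160 * m < p ^ 2 → ∀ β γ : ℤ,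
      5 * β = kb * p - nb → 5 * γ = kc * p - nc →
      ∀ lam : ℤ, lam ≤ 0 → (ebound kb kc β γ p m lam : ℝ) ≤ v m p) :
    ∀ᶠ m : ℕ in atTop, cmid kb * (m : ℝ) ^ 2 ≤
      psum a (4 * m) (160 * m) (fun p => v m p * Real.log p) := by
  have key := @Mid.final nb nc kb kc hn hk a ha hab hac v hv
  rcases hk with ⟨rfl, rfl⟩ | ⟨rfl, rfl⟩ | ⟨rfl, rfl⟩ | ⟨rfl, rfl⟩
  · refine key _ Mid.ok21 _ ?_
    have h : (((-7336 / 10 : ℚ)) : ℝ) < _ := Rat.cast_lt.2 Mid.val21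
    refine lt_of_le_of_lt (le_of_eq ?_) h
    norm_num [cmid]
  · refine key _ Mid.ok42 _ ?_
    have h : (((-6022 / 10 : ℚ)) : ℝ) < _ := Rat.cast_lt.2 Mid.val42
    refine lt_of_le_of_lt (le_of_eq ?_) h
    norm_num [cmid]
  · refine key _ Mid.ok13 _ ?_
    have h : (((-7498 / 10 : ℚ)) : ℝ) < _ := Rat.cast_lt.2 Mid.val13
    refine lt_of_le_of_lt (le_of_eq ?_) h
    norm_num [cmid]
  · refine key _ Mid.ok34 _ ?_
    have h : (((-61895 / 100 : ℚ)) : ℝ) < _ := Rat.cast_lt.2 Mid.val34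
    refine lt_of_le_of_lt (le_of_eq ?_) h
    norm_num [cmid]

end Pool.Agent.Caab.F5
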