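import Pool.Agent.Lib.MP_caab05_ag.F5.Defs

/-! The tail estimate for the potential at the primes below `4 m`. -/

namespace Pool.Agent.Caab.F5

open Finset Filter Topology

namespace Tail

theorem step_ge (kb kc fb fc eb ec base θ r lo : ℤ) (hr : lo ≤ r)
    (h : lo ≤ base - 1 - ind (5 - kb) θ - ind (5 - kc) θ + ind kb θ
      + ind kc θ) : lo ≤ phiStep kb kc fb fc eb ec base θ r := by
  unfold phiStep
  split_ifs
  · exact le_min hr h
  · exact hr

theorem Phi_ge (kb kc cc : ℤ) (hk : KK kb kc)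
    (hcc : cc = if kb = 3 then -3 else -2) (a1 fb fc eb ec : ℤ) :
    min 0 (a1 + fb + fc - eb - ec + cc) ≤ Phi kb kc a1 fb fc eb ec := by
  unfold Phi
  have h0 := min_le_left 0 (a1 + fb + fc - eb - ec + cc)
  have h1 := min_le_right 0 (a1 + fb + fc - eb - ec + cc)
  generalize min 0 (a1 + fb + fc - eb - ec + cc) = lo at h0 h1 ⊢
  rcases hk with ⟨rfl, rfl⟩ | ⟨rfl, rfl⟩ | ⟨rfl, rfl⟩ | ⟨rfl, rfl⟩ <;> norm_num at hcc <;> subst hcc <;>
    refine step_ge _ _ _ _ _ _ _ _ _ _ (step_ge _ _ _ _ _ _ _ _ _ _ (step_ge _ _ _ _ _ _ _ _ _ _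
      (step_ge _ _ _ _ _ _ _ _ _ _ (step_ge _ _ _ _ _ _ _ _ _ _ ?_ ?_) ?_) ?_) ?_) ?_ <;>
    first
      | (split_ifs
         · exact le_min h0 (by omega)
         · exact h0)
      | (norm_num [ind]; omega)

theorem hh_le (s t : ℤ) (h : s ≤ 0 ∨ s ≤ t) : 4 * hh s ≤ (t + 1) ^ 2 := by
  unfold hh
  have h0 := sq_nonneg (t + 1)
  split_ifs with h1
  · omega
  · by_cases h2 : s = 0
    · subst h2; norm_num; exact h0
    · have h3 : s ≤ t := by omega
      have h4 : (s + 1) ^ 2 ≤ (t + 1) ^ 2 := by nlinarith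
      omega

theorem sum_div (p : ℕ) (hp : 0 < p) (t : ℤ) : ∑ x ∈ range p, ((x : ℤ) + t) / p = t := by
  have hp' : (p : ℤ) ≠ 0 := by exact_mod_cast hp.ne'
  have step : ∀ t : ℤ, ∑ x ∈ range p, ((x : ℤ) + (t + 1)) / p
      = ∑ x ∈ range p, ((x : ℤ) + t) / p + 1 := by
    intro t
    have h1 := sum_range_succ (fun x : ℕ => ((x : ℤ) + t) / p) p
    have h2 := sum_range_succ' (fun x : ℕ => ((x : ℤ) + t) / p) p
    have h3 : ((p : ℤ) + t) / p = t / p + 1 := by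
      rw [add_comm, ← Int.add_mul_ediv_right t 1 hp', one_mul]
    have h4 : ∑ x ∈ range p, (((x + 1 : ℕ) : ℤ) + t) / p = ∑ x ∈ range p, ((x : ℤ) + (t + 1)) / p :=
      sum_congr rfl fun x _ => by congr 1; push_cast; ring
    rw [h1, h3, h4] at h2
    simp only [Nat.cast_zero, zero_add] at h2
    omega
  induction t using Int.induction_on with
  | zero =>
    refine sum_eq_zero fun x hx => ?_
    rw [add_zero]
    exact Int.ediv_eq_zero_of_lt (by positivity) (by exact_mod_cast mem_range.mp hx)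
  | succ i ih => rw [step, ih]
  | pred i ih =>
    have := step (-(i : ℤ) - 1)
    rw [sub_add_cancel, ih] at this
    omega

theorem div_move (p x : ℕ) (hx : x < p) (t : ℤ) :
    t / p ≤ ((x : ℤ) + t) / p ∧ ((x : ℤ) + t) / p ≤ t / p + 1 := by
  have hp : (0 : ℤ) < p := by exact_mod_cast (Nat.zero_lt_of_lt hx)
  have hx' : (x : ℤ) < p := by exact_mod_cast hx
  constructor
  · exact Int.ediv_le_ediv hp (by omega)
  · rw [← Int.add_mul_ediv_right t 1 hp.ne']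
    exact Int.ediv_le_ediv hp (by omega)

end Tail

open Tail in
theorem tail (nb nc kb kc β γ : ℤ) (hn : KK nb nc) (hk : KK kb kc)
    (p m : ℕ) (hm : 2000 ≤ m) (hpm : 160 * m < p ^ 2) (hβ : 5 * β = kb * p - nb)
    (hγ : 5 * γ = kc * p - nc) :
    ∃ lam : ℤ, lam ≤ 0 ∧ -420 * (m : ℝ) ^ 2 / ((p : ℝ) - 1) + 20 * m * (kap kb - 0.01)
      - 13 / 8 * p ≤ (ebound kb kc β γ p m lam : ℝ) := by
  have hp500 : 500 ≤ p := by
    by_contra h
    have : p ^ 2 ≤ 500 ^ 2 := Nat.pow_le_pow_left (by omega) 2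
    omega
  have hpR : (500 : ℝ) ≤ p := by exact_mod_cast hp500
  have hp0 : (0 : ℝ) < p := by linarith
  have hmR : (2000 : ℝ) ≤ m := by exact_mod_cast hm
  obtain ⟨cc, hcc⟩ : ∃ cc : ℤ, cc = if kb = 3 then -3 else -2 := ⟨_, rfl⟩
  have hkap : kap kb = 2 * (kb : ℝ) / 5 + 2 * kc / 5 + cc - 1 ∧ kap kb ≤ -3 / 5 := by
    rcases hk with ⟨rfl, rfl⟩ | ⟨rfl, rfl⟩ | ⟨rfl, rfl⟩ | ⟨rfl, rfl⟩ <;> norm_num at hcc <;> subst hcc <;>
      norm_num [kap]
  set y : ℕ → ℤ := fun x => ((x : ℤ) + 7 * m) / p + ((x : ℤ) + (β + 6 * m - 1)) / p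
    + ((x : ℤ) + (γ + 5 * m - 1)) / p - ((x : ℤ) + (-β + 29 * m)) / p
    - ((x : ℤ) + (-γ + 30 * m)) / p with hy
  have hPhi : ∀ x, min 0 (y x + cc) ≤ PhiX kb kc β γ p m x := by
    intro x
    have := Phi_ge kb kc cc hk hcc (((x : ℤ) + 7 * m) / p) (((x : ℤ) + β + 6 * m - 1) / p)
      (((x : ℤ) + γ + 5 * m - 1) / p) (((x : ℤ) - β + 29 * m) / p) (((x : ℤ) - γ + 30 * m) / p)
    have e1 : (x : ℤ) + (β + 6 * m - 1) = (x : ℤ) + β + 6 * m - 1 := by ring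
    have e2 : (x : ℤ) + (γ + 5 * m - 1) = (x : ℤ) + γ + 5 * m - 1 := by ring
    have e3 : (x : ℤ) + (-β + 29 * m) = (x : ℤ) - β + 29 * m := by ring
    have e4 : (x : ℤ) + (-γ + 30 * m) = (x : ℤ) - γ + 30 * m := by ring
    simp only [hy, e1, e2, e3, e4]
    exact this
  have hS : ∑ x ∈ range p, y x = -41 * m + 2 * β + 2 * γ - 2 := by
    simp only [hy, sum_add_distrib, sum_sub_distrib, sum_div p (by omega)]
    ring
  obtain ⟨lo, hlo⟩ : ∃ lo : ℤ, ∀ x ∈ range p, lo ≤ y x ∧ y x ≤ lo + 5 := by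
    refine ⟨(7 * m : ℤ) / p + (β + 6 * m - 1) / p + (γ + 5 * m - 1) / p - (-β + 29 * m) / p
      - (-γ + 30 * m) / p - 2, fun x hx => ?_⟩
    have hx' := mem_range.mp hx
    have a1 := div_move p x hx' (7 * m)
    have a2 := div_move p x hx' (β + 6 * m - 1)
    have a3 := div_move p x hx' (γ + 5 * m - 1)
    have a4 := div_move p x hx' (-β + 29 * m)
    have a5 := div_move p x hx' (-γ + 30 * m)
    simp only [hy]
    omega
  set μ : ℝ := ((-41 * m + 2 * β + 2 * γ - 2 : ℤ) : ℝ) / p with hμ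
  have hμp : ((-41 * m + 2 * β + 2 * γ - 2 : ℤ) : ℝ) = μ * p := by rw [hμ]; field_simp
  have hβR : (5 : ℝ) * β = kb * p - nb := by exact_mod_cast hβ
  have hγR : (5 : ℝ) * γ = kc * p - nc := by exact_mod_cast hγ
  have hbR : (nb : ℝ) + nc ≤ 7 ∧ 0 ≤ (nb : ℝ) + nc := by
    rcases hn with ⟨rfl, rfl⟩ | ⟨rfl, rfl⟩ | ⟨rfl, rfl⟩ | ⟨rfl, rfl⟩ <;> norm_num
  set w : ℝ := m / p with hw
  have hwp : (m : ℝ) = w * p := by rw [hw]; field_simp
  have hw0 : 0 ≤ w := by positivity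
  have hF : (μ + cc - 1 - kap kb + 41 * w) * p = -2 - 2 * (nb + nc) / 5 := by
    rw [hkap.1]
    push_cast at hμp
    linear_combination -hμp - 41 * hwp + 2 * hβR / 5 + 2 * hγR / 5
  have hF1 : μ + cc - 1 - kap kb + 41 * w ≤ 0 := by
    by_contra h
    push Not at h
    have := mul_pos h hp0
    linarith [hbR.2]
  have hF2 : -0.01 ≤ μ + cc - 1 - kap kb + 41 * w := by
    by_contra h
    push Not at h
    have := mul_lt_mul_of_pos_right h hp0
    linarith [hbR.1]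
  set lam : ℤ := round (μ + cc - 1 + 40 * w) with hlam
  have hr := abs_le.mp (abs_sub_round (μ + cc - 1 + 40 * w))
  rw [← hlam] at hr
  have hlam0 : lam ≤ 0 := by
    have : (lam : ℝ) ≤ 0 := by linarith [hkap.2, hr.1]
    exact_mod_cast this
  refine ⟨lam, hlam0, ?_⟩
  have h1 : 4 * ∑ x ∈ range p, hh (lam - PhiX kb kc β γ p m x)
      ≤ p * (lam + 1 - cc) ^ 2 + (2 * lo + 5 - 2 * (lam + 1 - cc)) * (-41 * m + 2 * β + 2 * γ - 2)
        - p * (lo * (lo + 5)) := by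
    rw [← hS, mul_sum, mul_sum]
    have e : (p : ℤ) * (lam + 1 - cc) ^ 2 + ∑ x ∈ range p, (2 * lo + 5 - 2 * (lam + 1 - cc)) * y x
        - p * (lo * (lo + 5)) = ∑ x ∈ range p, ((lam + 1 - cc) ^ 2
          + (2 * lo + 5 - 2 * (lam + 1 - cc)) * y x - lo * (lo + 5)) := by
      simp only [sum_add_distrib, sum_sub_distrib, sum_const, card_range, nsmul_eq_mul]
    rw [e]
    refine sum_le_sum fun x hx => ?_
    have a1 := hh_le (lam - PhiX kb kc β γ p m x) (lam - y x - cc) (by have := hPhi x; omega)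
    have a2 := mul_nonneg (sub_nonneg.mpr (hlo x hx).1) (sub_nonneg.mpr (hlo x hx).2)
    nlinarith
  have h2 : (4 : ℝ) * ((∑ x ∈ range p, hh (lam - PhiX kb kc β γ p m x) : ℤ) : ℝ)
      ≤ p * (lam + 1 - cc) ^ 2 + (2 * lo + 5 - 2 * (lam + 1 - cc)) * (μ * p)
        - p * (lo * (lo + 5)) := by
    rw [← hμp]
    exact_mod_cast h1
  have h3 : (ebound kb kc β γ p m lam : ℝ)
      = lam * (20 * m) - ((∑ x ∈ range p, hh (lam - PhiX kb kc β γ p m x) : ℤ) : ℝ) := by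
    unfold ebound
    push_cast
    rfl
  have h4 : -420 * (m : ℝ) ^ 2 / ((p : ℝ) - 1) ≤ -420 * m * w := by
    rw [div_le_iff₀ (by linarith), sq]
    nth_rewrite 2 [hwp]
    have : (0 : ℝ) ≤ m * w := by positivity
    nlinarith
  have h5 : ((lam : ℝ) - (μ + cc - 1 + 40 * w)) ^ 2 ≤ 1 / 4 := by nlinarith [hr.1, hr.2]
  have h6 := mul_le_mul_of_nonneg_left h5 hp0.le
  have h7 := mul_nonneg hp0.le (sq_nonneg (μ - lo - 5 / 2))
  have h8 := mul_le_mul_of_nonneg_left hF2 (show (0 : ℝ) ≤ 20 * m by linarith)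
  rw [h3]
  rw [hwp] at h4 h8 ⊢
  nlinarith

end Pool.Agent.Caab.F5
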