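import Pool.Agent.Lib.MP_caab05_ag.F5.LargeMain
import Pool.Agent.Lib.MP_caab05_ag.F5.Five
import Pool.Agent.Lib.MP_caab05_ag.F5.Tail
import Pool.Agent.Lib.MP_caab05_ag.F5.Mid
import Pool.Agent.Lib.MP_caab05_ag.Arith

/-! The lower bound for the logarithm of the determinant. -/

namespace Pool.Agent.Caab.F5

open Finset Filter Topology

namespace Arith

theorem split_primes (N : ℕ) (hN : 5 ≤ N) (f : ℕ → ℝ) :
    ∑ p ∈ (range (N + 1)).filter Nat.Prime, f p =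
      f 5 + (psum 1 0 N f + psum 2 0 N f + psum 3 0 N f + psum 4 0 N f) := by
  have h2 : f 5 = ∑ p ∈ range (N + 1), if p = 5 then f p else 0 := by
    rw [sum_ite_eq', if_pos (mem_range.2 (by omega))]
  have h4 : ∀ a, psum a 0 N f = ∑ p ∈ range (N + 1), if p.Prime ∧ p % 5 = a then f p else 0 := by
    intro a
    rw [psum, Nat.floor_zero, Nat.floor_natCast, ← sum_filter]
    refine sum_congr ?_ fun _ _ => rfl
    ext p
    simp only [mem_filter, mem_Ioc, mem_range]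
    constructor
    · rintro ⟨h1, h⟩
      exact ⟨by omega, h⟩
    · rintro ⟨h1, h⟩
      exact ⟨⟨h.1.pos, by omega⟩, h⟩
  rw [h2, h4, h4, h4, h4, sum_filter]
  simp only [← sum_add_distrib]
  refine sum_congr rfl fun p _ => ?_
  have h5 : Nat.Prime 5 := by norm_num
  by_cases hp : p.Prime
  · by_cases e2 : p = 5
    · subst e2; simp [hp]
    have a2 : ¬ 5 ∣ p := fun h => e2 ((Nat.prime_dvd_prime_iff_eq h5 hp).1 h).symm
    have : p % 5 = 1 ∨ p % 5 = 2 ∨ p % 5 = 3 ∨ p % 5 = 4 := by omega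
    rcases this with h | h | h | h <;> simp [hp, e2, h]
  · have e2 : p ≠ 5 := fun h => hp (h ▸ h5)
    simp [hp, e2]

theorem ebound_nonpos (kb kc β γ : ℤ) (p m : ℕ) (lam : ℤ) (h : lam ≤ 0) :
    ebound kb kc β γ p m lam ≤ 0 := by
  have h1 : 0 ≤ ∑ x ∈ range p, hh (lam - PhiX kb kc β γ p m x) := sum_nonneg fun x _ => by
    unfold hh
    split_ifs
    · exact le_rfl
    · positivity
  have h2 : lam * (20 * m) ≤ 0 := mul_nonpos_of_nonpos_of_nonneg h (by positivity)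
  unfold ebound
  linarith

theorem err_small : ∀ᶠ m : ℕ in atTop,
    ((Nat.sqrt (160 * m) : ℝ) + 1) * (800 * m * Real.log (160 * m)) ≤ (m : ℝ) ^ 2 := by
  have h1 : Tendsto (fun x : ℝ => Real.log x / x ^ (1 / 2 : ℝ)) atTop (𝓝 0) :=
    (isLittleO_log_rpow_atTop (r := 1 / 2) (by norm_num)).tendsto_div_nhds_zero
  have h2 : Tendsto (fun m : ℕ => (160 : ℝ) * m) atTop atTop :=
    tendsto_natCast_atTop_atTop.const_mul_atTop (by norm_num)
  filter_upwards [(h1.comp h2).eventually (gt_mem_nhds (show (0 : ℝ) < 1 / 256000 by norm_num)),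
    eventually_ge_atTop 1] with m hm h1m
  have hm1 : (1 : ℝ) ≤ m := by exact_mod_cast h1m
  simp only [Function.comp, ← Real.sqrt_eq_rpow] at hm
  set s := √(160 * (m : ℝ)) with hs
  have hs2 : s * s = 160 * m := Real.mul_self_sqrt (by positivity)
  have hs1 : 1 ≤ s := Real.one_le_sqrt.2 (by linarith)
  have hs0 : 0 < s := by linarith
  rw [div_lt_iff₀ hs0] at hm
  have h3 : (Nat.sqrt (160 * m) : ℝ) ≤ s := by
    have := Real.nat_sqrt_le_real_sqrt (a := 160 * m)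
    push_cast at this
    exact this
  have h4 : 0 ≤ Real.log (160 * m) := Real.log_nonneg (by linarith)
  calc ((Nat.sqrt (160 * m) : ℝ) + 1) * (800 * m * Real.log (160 * m))
      ≤ (2 * s) * (800 * m * (1 / 256000 * s)) := by gcongr; linarith
    _ = (m : ℝ) ^ 2 := by linear_combination (1 / 160 * m) * hs2

theorem kap_le (kb : ℤ) : kap kb ≤ 0 := by
  unfold kap
  split_ifs <;> norm_num

/-- the primes of one residue class -/
theorem cls_bound (b c : ℚ) (nb nc kb kc : ℤ) (hn : KK nb nc)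
    (hbb : b = -nb / 5) (hcc : c = -nc / 5) (a : ℕ) (ha : a = 1 ∨ a = 2 ∨ a = 3 ∨ a = 4)
    (hk' : KK kb kc ∧ (5 : ℤ) ∣ kb * a - nb ∧ (5 : ℤ) ∣ kc * a - nc)
    (a1 a2 : ℤ) :
    ∀ᶠ m : ℕ in atTop, DD b c a1 a2 m ≠ 0 →
      -420 * (m : ℝ) ^ 2 * psum a 0 ((4 * m : ℕ) : ℝ) (fun p => Real.log p / ((p : ℝ) - 1)) +
        (20 * kap kb + cmid kb - 4.5) * (m : ℝ) ^ 2 ≤
      psum a 0 ((160 * m : ℕ) : ℝ)
        (fun p => (padicValRat p (DD b c a1 a2 m) : ℝ) * Real.log p) := by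
  obtain ⟨hk, hab, hac⟩ := hk'
  have hbc : BC b c := BC_of hn hbb hcc
  have hmid := mid nb nc kb kc hn hk a ha hab hac
    (fun m p => (padicValRat p (DD b c a1 a2 m) : ℝ))
    (fun m p hm hp h30 hpm β γ hβ hγ lam hlam => by
      rcases large b c nb nc kb kc β γ hn hbb hcc hk p m hp h30 hm hpm hβ hγ a1 a2 lam hlam
        with h | h
      · rw [h, padicValRat.zero]
        exact_mod_cast ebound_nonpos kb kc β γ p m lam hlam
      · exact h)
  have hlim := psum_tendsto a ha 0 4 (20 * (kap kb - 0.01)) (-13 / 8) 0 le_rfl (by norm_num)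
  have hev := hlim.eventually (lt_mem_nhds (show 20 * kap kb - 3.5 <
    20 * (kap kb - 0.01) * (4 - 0) / 4 + -13 / 8 * (4 ^ 2 - 0 ^ 2) / 8 by linarith))
  filter_upwards [hmid, hev, err_small, eventually_ge_atTop 2000] with m h1 h2 h3 hm hD
  have hm1 : (2000 : ℝ) ≤ m := by exact_mod_cast hm
  rw [lt_div_iff₀ (by positivity), zero_mul] at h2
  push_cast
  rw [psum_add a 0 (4 * m) (160 * m) (by positivity) (by linarith)]
  have hfl : ⌊(4 : ℝ) * m⌋₊ = 4 * m := by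
    rw [show (4 : ℝ) * m = ((4 * m : ℕ) : ℝ) by push_cast; ring, Nat.floor_natCast]
  have hlog : 0 ≤ Real.log (160 * m) := Real.log_nonneg (by linarith)
  have key : ∀ p ∈ (Ioc ⌊(0 : ℝ)⌋₊ ⌊(4 : ℝ) * m⌋₊).filter (fun p : ℕ => p.Prime ∧ p % 5 = a),
      -420 * (m : ℝ) ^ 2 * (Real.log p / ((p : ℝ) - 1)) +
        (20 * (kap kb - 0.01) * m + -13 / 8 * p - 0) * Real.log p -
        (if p ≤ Nat.sqrt (160 * m) then 800 * m * Real.log (160 * m) else 0) ≤
      (padicValRat p (DD b c a1 a2 m) : ℝ) * Real.log p := by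
    intro p hp
    rw [mem_filter, mem_Ioc, hfl] at hp
    obtain ⟨⟨-, hp3⟩, hp, hpa⟩ := hp
    have hlp : 0 ≤ Real.log p := Real.log_natCast_nonneg p
    have h5 : p ≠ 5 := by omega
    have hp0 : (0 : ℝ) < p := by exact_mod_cast hp.pos
    split_ifs with hs
    · have hs' : p * p ≤ 160 * m := Nat.le_sqrt.1 hs
      have hL := (small b c hbc p hp h5 m (by omega) a1 a2 (Nat.log p (160 * m))
        (Nat.lt_pow_succ_log_self hp.one_lt _)).le hD
      have e1 : (Nat.log p (160 * m) : ℝ) * Real.log p ≤ Real.log (160 * m) := by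
        rw [← Real.log_pow]
        refine Real.log_le_log (by positivity) ?_
        exact_mod_cast Nat.pow_log_le_self p (by omega : 160 * m ≠ 0)
      have e2 : Real.log p ≤ Real.log (160 * m) := by
        refine Real.log_le_log hp0 ?_
        exact_mod_cast (by omega : p ≤ 160 * m)
      have e3 := mul_le_mul_of_nonneg_right hL hlp
      have e4 : (20 * (kap kb - 0.01) * m + -13 / 8 * p - 0) * Real.log p ≤ 0 := by
        refine mul_nonpos_of_nonpos_of_nonneg ?_ hlp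
        have := kap_le kb
        nlinarith
      have e5 : (-420 * (m : ℝ) ^ 2 / ((p : ℝ) - 1) - 400 * m * ((Nat.log p (160 * m) : ℝ) + 1)) *
          Real.log p = -420 * (m : ℝ) ^ 2 * (Real.log p / ((p : ℝ) - 1)) -
            400 * m * ((Nat.log p (160 * m) : ℝ) * Real.log p + Real.log p) := by ring
      have e6 : 400 * (m : ℝ) * ((Nat.log p (160 * m) : ℝ) * Real.log p + Real.log p) ≤
          400 * m * (Real.log (160 * m) + Real.log (160 * m)) := by gcongr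
      linarith
    · have hs' : 160 * m < p ^ 2 := by
        rw [sq]
        by_contra hcon
        exact hs (Nat.le_sqrt.2 (by omega))
      have h30 : 30 ≤ p := by
        by_contra hcon
        have : p ^ 2 ≤ 30 ^ 2 := Nat.pow_le_pow_left (by omega) 2
        omega
      obtain ⟨β, hβ⟩ : ∃ β : ℤ, 5 * β = kb * p - nb :=
        ⟨(kb * p - nb) / 5, by rcases hk with ⟨rfl, rfl⟩ | ⟨rfl, rfl⟩ | ⟨rfl, rfl⟩ | ⟨rfl, rfl⟩ <;> omega⟩
      obtain ⟨γ, hγ⟩ : ∃ γ : ℤ, 5 * γ = kc * p - nc :=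
        ⟨(kc * p - nc) / 5, by rcases hk with ⟨rfl, rfl⟩ | ⟨rfl, rfl⟩ | ⟨rfl, rfl⟩ | ⟨rfl, rfl⟩ <;> omega⟩
      obtain ⟨lam, hlam, ht⟩ := tail nb nc kb kc β γ hn hk p m hm hs' hβ hγ
      have hL := (large b c nb nc kb kc β γ hn hbb hcc hk p m hp h30 (by omega) hs' hβ hγ
        a1 a2 lam hlam).le hD
      have e3 := mul_le_mul_of_nonneg_right (ht.trans hL) hlp
      refine le_trans (le_of_eq ?_) e3
      ring
  have h4 := sum_le_sum key
  rw [sum_sub_distrib, sum_add_distrib, ← mul_sum] at h4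
  have h5 : ∑ p ∈ (Ioc ⌊(0 : ℝ)⌋₊ ⌊(4 : ℝ) * m⌋₊).filter (fun p : ℕ => p.Prime ∧ p % 5 = a),
      (if p ≤ Nat.sqrt (160 * m) then 800 * m * Real.log (160 * m) else 0) ≤ (m : ℝ) ^ 2 := by
    rw [← sum_filter, sum_const, nsmul_eq_mul]
    refine le_trans (mul_le_mul_of_nonneg_right ?_ (by positivity)) h3
    have : (((Ioc ⌊(0 : ℝ)⌋₊ ⌊(4 : ℝ) * m⌋₊).filter (fun p : ℕ => p.Prime ∧ p % 5 = a)).filter
        fun p => p ≤ Nat.sqrt (160 * m)) ⊆ range (Nat.sqrt (160 * m) + 1) := fun p hp =>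
      mem_range.2 (Nat.lt_succ_of_le (mem_filter.1 hp).2)
    have := card_le_card this
    rw [card_range] at this
    exact_mod_cast this
  have h6 : -420 * (m : ℝ) ^ 2 * psum a 0 (4 * m) (fun p => Real.log p / ((p : ℝ) - 1)) +
      psum a 0 (4 * m) (fun p => (20 * (kap kb - 0.01) * m + -13 / 8 * p - 0) * Real.log p) -
      (m : ℝ) ^ 2 ≤
      psum a 0 (4 * m) (fun p => (padicValRat p (DD b c a1 a2 m) : ℝ) * Real.log p) :=
    le_trans (sub_le_sub_left h5 _) h4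
  have h7 : (20 * kap kb + cmid kb - 4.5) * (m : ℝ) ^ 2 =
      (20 * kap kb - 3.5) * (m : ℝ) ^ 2 + cmid kb * (m : ℝ) ^ 2 - (m : ℝ) ^ 2 := by
    norm_num; ring
  rw [h7]
  generalize (20 * kap kb - 3.5) * (m : ℝ) ^ 2 = A at *
  linarith

theorem classes (nb nc : ℤ) (hn : KK nb nc) :
    ∃ kb kc : ℕ → ℤ, (∀ a : ℕ, a = 1 ∨ a = 2 ∨ a = 3 ∨ a = 4 →
      KK (kb a) (kc a) ∧ (5 : ℤ) ∣ kb a * a - nb ∧ (5 : ℤ) ∣ kc a * a - nc) ∧
      20 * kap (kb 1) + cmid (kb 1) + (20 * kap (kb 2) + cmid (kb 2)) +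
        (20 * kap (kb 3) + cmid (kb 3)) + (20 * kap (kb 4) + cmid (kb 4)) = -2804.55 := by
  refine ⟨fun a => nb * a ^ 3 % 5, fun a => nc * a ^ 3 % 5, ?_, ?_⟩
  · intro a ha
    unfold KK
    rcases hn with ⟨rfl, rfl⟩ | ⟨rfl, rfl⟩ | ⟨rfl, rfl⟩ | ⟨rfl, rfl⟩ <;>
      rcases ha with rfl | rfl | rfl | rfl <;> decide
  · rcases hn with ⟨rfl, rfl⟩ | ⟨rfl, rfl⟩ | ⟨rfl, rfl⟩ | ⟨rfl, rfl⟩ <;> norm_num [kap, cmid]

end Arith

open Arith in
/-- lower bound for the logarithm of the determinant -/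
theorem arith (b c : ℚ) (hbc : BC b c) (a1 a2 : ℤ) : ∀ᶠ m : ℕ in atTop, 0 < DD b c a1 a2 m →
      -420 * (m : ℝ) ^ 2 * Real.log m - 1810 * (m : ℝ) ^ 2 ≤ Real.log (DD b c a1 a2 m) := by
  obtain ⟨nb, nc, hn, hbb, hcc⟩ : ∃ nb nc : ℤ, KK nb nc ∧ b = -nb / 5 ∧ c = -nc / 5 := by
    unfold KK
    rcases hbc with ⟨rfl, rfl⟩ | ⟨rfl, rfl⟩ | ⟨rfl, rfl⟩ | ⟨rfl, rfl⟩
    · exact ⟨2, 1, by simp⟩
    · exact ⟨4, 2, by simp⟩
    · exact ⟨1, 3, by simp⟩
    · exact ⟨3, 4, by simp⟩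
  obtain ⟨kb, kc, hk, hsum⟩ := classes nb nc hn
  have h4m : Tendsto (fun m : ℕ => 4 * m) atTop atTop := tendsto_id.const_mul_atTop' (by norm_num)
  filter_upwards [cls_bound b c nb nc _ _ hn hbb hcc 1 (by simp) (hk 1 (by simp)) a1 a2,
    cls_bound b c nb nc _ _ hn hbb hcc 2 (by simp) (hk 2 (by simp)) a1 a2,
    cls_bound b c nb nc _ _ hn hbb hcc 3 (by simp) (hk 3 (by simp)) a1 a2,
    cls_bound b c nb nc _ _ hn hbb hcc 4 (by simp) (hk 4 (by simp)) a1 a2,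
    h4m.eventually mertens_upper, eventually_ge_atTop 2] with m g1 g2 g3 g4 hM hm hD
  have h0 := Caab.Arith.log_ge_sum _ hD (160 * m) fun p hp hpm =>
    big b c hbc p hp m (by omega) hpm a1 a2
  rw [split_primes _ (by omega)] at h0 hM
  have g1 := g1 hD.ne'
  have g2 := g2 hD.ne'
  have g3 := g3 hD.ne'
  have g4 := g4 hD.ne'
  have hm1 : (2 : ℝ) ≤ m := by exact_mod_cast hm
  have l2 := Real.log_two_lt_d9
  have l5 := Real.log_five_gt_d9
  have v5 := mul_le_mul_of_nonneg_right ((five b c hbc m a1 a2).le hD.ne')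
    (Real.log_natCast_nonneg 5)
  have e4 : Real.log ((4 * m : ℕ) : ℝ) = 2 * Real.log 2 + Real.log m := by
    push_cast
    rw [Real.log_mul (by norm_num) (by positivity), show (4 : ℝ) = 2 ^ 2 by norm_num, Real.log_pow]
    norm_num
  rw [e4] at hM
  have hM' := mul_le_mul_of_nonneg_left hM (show 0 ≤ 420 * (m : ℝ) ^ 2 by positivity)
  have hs' : (20 * kap (kb 1) + cmid (kb 1) + (20 * kap (kb 2) + cmid (kb 2)) +
      (20 * kap (kb 3) + cmid (kb 3)) + (20 * kap (kb 4) + cmid (kb 4))) * (m : ℝ) ^ 2 =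
      -2804.55 * (m : ℝ) ^ 2 := by rw [hsum]
  have q0 : 0 ≤ (m : ℝ) ^ 2 := by positivity
  have q2 := mul_le_mul_of_nonneg_left l2.le q0
  have q5 := mul_le_mul_of_nonneg_left l5.le q0
  norm_num at hM' v5 h0 g1 g2 g3 g4 hs' q2 q5 ⊢
  linarith

end Pool.Agent.Caab.F5
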