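import Pool.Agent.Lib.MP_caab05_ag.Levels
import Pool.Agent.Lib.MP_caab05_ag.Expand

/-!
Definitions for the irrationality of `B(x,x) B(y,y) / B(x+y,x+y)` with denominators 5.
Everything lives in the namespace `Pool.Agent.Caab.F5`, whose names shadow those of `Pool.Agent.Caab`.
-/

namespace Pool.Agent.Caab.F5

open Finset

/-- the four admissible pairs of residues modulo 5 -/
def KK (u v : ℤ) : Prop := (u = 2 ∧ v = 1) ∨ (u = 4 ∧ v = 2) ∨ (u = 1 ∧ v = 3) ∨ (u = 3 ∧ v = 4)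

/-- the four admissible pairs of parameters -/
def BC (b c : ℚ) : Prop :=
  (b = -2 / 5 ∧ c = -1 / 5) ∨ (b = -4 / 5 ∧ c = -2 / 5) ∨ (b = -1 / 5 ∧ c = -3 / 5) ∨
    (b = -3 / 5 ∧ c = -4 / 5)

/-- the positive weight -/
noncomputable def ww (b c : ℝ) (m k : ℕ) : ℝ :=
  rf ((k : ℝ) + 1) (7 * m) * rf b (k + 6 * m) * rf c (k + 5 * m) /
    (rf (1 - c) (k + 30 * m) * rf (1 - b) (k + 29 * m))

/-- majorant of the weight -/
noncomputable def wbar (m k : ℕ) : ℝ :=
  ((k + 7 * m).factorial : ℝ) * ((k + 6 * m).factorial : ℝ) * ((k + 5 * m).factorial : ℝ) /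
    ((k.factorial : ℝ) * ((k + 30 * m).factorial : ℝ) * ((k + 29 * m).factorial : ℝ))

/-- comparison weight with an explicit Hankel determinant -/
noncomputable def wpr (m k : ℕ) : ℝ :=
  ((k + 2 * m).factorial : ℝ) * ((k + 2 * m).factorial : ℝ) /
    ((k.factorial : ℝ) * ((k + 45 * m).factorial : ℝ))

/-- the explicit Hankel determinant of the comparison weight -/
noncomputable def detpr (m : ℕ) : ℝ :=
  ∏ i ∈ range (20 * m), ((((2 * m + i).factorial : ℝ) / ((43 * m - 1 - i).factorial : ℝ)) ^ 2 *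
    (i.factorial : ℝ) * ((m + i).factorial : ℝ))

def SS (b c : ℚ) (m : ℕ) : Finset ℚ := Sset c (30 * m) ∪ Sset b (29 * m)

def ZZ (b c : ℚ) (m : ℕ) (y : ℚ) : ℚ :=
  rf (y + 1) (7 * m) * rf (y + b) (6 * m) * rf (y + c) (5 * m)

def XX (b c : ℚ) (m : ℕ) (η : ℚ → ℚ) (y : ℚ) : ℚ :=
  ∑ s ∈ range (30 * m), piS b c s y * η (y + s)

/-- the rational linear functional -/
def LL (b c : ℚ) (m : ℕ) (η R : ℚ → ℚ) : ℚ :=
  dd (fun y => ZZ b c m y * XX b c m η y * R y) (SS b c m)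

/-- the rational Hankel determinant -/
def DD (b c a1 a2 : ℚ) (m : ℕ) : ℚ :=
  hank (fun l => LL b c m (etaF a1 a2) (fun y => y ^ l)) (20 * m)

def phiStep (kb kc fb fc eb ec base θ r : ℤ) : ℤ :=
  if min (fb - ind (5 - kb) θ) (fc - ind (5 - kc) θ) + 1 ≤
      max (eb - ind kb θ) (ec - ind kc θ) then
    min r (base - 1 - ind (5 - kb) θ - ind (5 - kc) θ + ind kb θ + ind kc θ)
  else r

def Phi (kb kc a1 fb fc eb ec : ℤ) : ℤ :=
  phiStep kb kc fb fc eb ec (a1 + fb + fc - eb - ec) 0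
    (phiStep kb kc fb fc eb ec (a1 + fb + fc - eb - ec) 1
      (phiStep kb kc fb fc eb ec (a1 + fb + fc - eb - ec) 2
        (phiStep kb kc fb fc eb ec (a1 + fb + fc - eb - ec) 3
          (phiStep kb kc fb fc eb ec (a1 + fb + fc - eb - ec) 4
            (if min a1 (min fb fc) + 1 ≤ max eb ec then min 0 (a1 + fb + fc - eb - ec - 2)
              else 0)))))

/-- the `p`-adic potential on the residue class of `x` -/
def PhiX (kb kc β γ : ℤ) (p m x : ℕ) : ℤ :=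
  Phi kb kc (((x : ℤ) + 7 * m) / p) (((x : ℤ) + β + 6 * m - 1) / p) (((x : ℤ) + γ + 5 * m - 1) / p)
    (((x : ℤ) - β + 29 * m) / p) (((x : ℤ) - γ + 30 * m) / p)

/-- the lower bound for the valuation of the determinant at a large prime -/
def ebound (kb kc β γ : ℤ) (p m : ℕ) (lam : ℤ) : ℤ :=
  lam * (20 * m) - ∑ x ∈ range p, hh (lam - PhiX kb kc β γ p m x)

/-- sum over the primes `p ≡ a (mod 5)` with `lo < p ≤ hi` -/
noncomputable def psum (a : ℕ) (lo hi : ℝ) (f : ℕ → ℝ) : ℝ :=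
  ∑ p ∈ (Ioc ⌊lo⌋₊ ⌊hi⌋₊).filter (fun p : ℕ => p.Prime ∧ p % 5 = a), f p

noncomputable def kap (kb : ℤ) : ℝ :=
  if kb = 2 then -9 / 5 else if kb = 4 then -3 / 5 else if kb = 1 then -7 / 5 else -6 / 5

noncomputable def cmid (kb : ℤ) : ℝ :=
  if kb = 2 then -733.6 else if kb = 4 then -602.2 else if kb = 1 then -749.8 else -618.95

end Pool.Agent.Caab.F5
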