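import Pool.Agent.Lib.MP_caab05_ag.F5.Tools
import Pool.Agent.Lib.MP_caab05_ag.Identity

/-! Moments of the weight `ww` are values of the rational functional `LL`. -/

open Finset Filter Topology

namespace Pool.Agent.Caab.F5

namespace Identity

open Caab.Identity

open Polynomial in
theorem exists_ZZ_poly (b c : ℚ) (m l : ℕ) :
    ∃ P : ℚ[X], P.natDegree ≤ 18 * m + l ∧ ∀ y, P.eval y = ZZ b c m y * y ^ l := by
  obtain ⟨P1, h1, e1⟩ := exists_rf_poly 1 (7 * m)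
  obtain ⟨P2, h2, e2⟩ := exists_rf_poly b (6 * m)
  obtain ⟨P3, h3, e3⟩ := exists_rf_poly c (5 * m)
  refine ⟨P1 * P2 * P3 * X ^ l, ?_, fun y => ?_⟩
  · have a1 : (P1 * P2).natDegree ≤ P1.natDegree + P2.natDegree := natDegree_mul_le
    have a2 : (P1 * P2 * P3).natDegree ≤ (P1 * P2).natDegree + P3.natDegree := natDegree_mul_le
    have a3 : (P1 * P2 * P3 * X ^ l).natDegree ≤
        (P1 * P2 * P3).natDegree + (X ^ l : ℚ[X]).natDegree := natDegree_mul_le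
    rw [natDegree_X_pow] at a3
    omega
  · simp only [eval_mul, e1, e2, e3, eval_pow, eval_X, ZZ]

end Identity

open Caab.Identity Identity

theorem ww_pos (b c : ℝ) (hb1 : -1 < b) (hb0 : b < 0) (hc1 : -1 < c) (hc0 : c < 0) (m : ℕ)
    (hm : 1 ≤ m) (k : ℕ) : 0 < ww b c m k := by
  obtain ⟨N, hN⟩ : ∃ N, k + 6 * m = N + 1 := ⟨k + 6 * m - 1, by omega⟩
  obtain ⟨N', hN'⟩ : ∃ N, k + 5 * m = N + 1 := ⟨k + 5 * m - 1, by omega⟩
  unfold ww
  rw [hN, hN', mul_assoc]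
  exact div_pos (mul_pos (rf_pos (by positivity) _)
    (mul_pos_of_neg_of_neg (rf_neg hb1 hb0 N) (rf_neg hc1 hc0 N')))
    (mul_pos (rf_pos (by linarith) _) (rf_pos (by linarith) _))

theorem ww_le_wbar (b c : ℝ) (hb1 : -1 < b) (hb0 : b < 0) (hc1 : -1 < c) (hc0 : c < 0) (m : ℕ)
    (hm : 1 ≤ m) (k : ℕ) : ww b c m k ≤ wbar m k := by
  obtain ⟨N, hN⟩ : ∃ N, k + 6 * m = N + 1 := ⟨k + 6 * m - 1, by omega⟩
  obtain ⟨N', hN'⟩ : ∃ N, k + 5 * m = N + 1 := ⟨k + 5 * m - 1, by omega⟩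
  have h1 : rf ((k : ℝ) + 1) (7 * m) = ((k + 7 * m).factorial : ℝ) / k.factorial := by
    have := Caab.rf_add (1 : ℝ) k (7 * m)
    rw [rf_one, rf_one, add_comm (1 : ℝ)] at this
    rw [this]
    field_simp
  have h2 : rf b (N + 1) * rf c (N' + 1) ≤
      ((N + 1).factorial : ℝ) * ((N' + 1).factorial : ℝ) := by
    refine (le_abs_self _).trans ?_
    rw [abs_mul]
    exact mul_le_mul (abs_rf_le_fact hb1 hb0 N) (abs_rf_le_fact hc1 hc0 N') (abs_nonneg _)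
      (by positivity)
  have h3 : (((k + 30 * m).factorial : ℝ)) * ((k + 29 * m).factorial : ℝ) ≤
      rf (1 - c) (k + 30 * m) * rf (1 - b) (k + 29 * m) :=
    mul_le_mul (fact_le_rf (by linarith) _) (fact_le_rf (by linarith) _) (by positivity)
      (rf_pos (by linarith) _).le
  unfold ww wbar
  rw [hN, hN', h1, mul_assoc]
  refine (div_le_div₀ (by positivity) (mul_le_mul_of_nonneg_left h2 (by positivity))
    (by positivity) h3).trans (le_of_eq ?_)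
  field_simp

theorem identity (b c : ℚ) (hbc : BC b c) (m : ℕ)
    (hm : 1 ≤ m) (Λ : ℚ) (hΛ : HasSum (tt (b : ℝ) (c : ℝ)) (Λ : ℝ)) (l : ℕ)
    (hl : l ≤ 40 * m - 2) :
    HasSum (fun k : ℕ => ww (b : ℝ) (c : ℝ) m k * (k : ℝ) ^ l)
      ((LL b c m (etaF (-(2 * b + 2 * c - 1) * Λ) (b * c)) (fun y => y ^ l) : ℚ) : ℝ) := by
  have hb1 : -1 < b := by rcases hbc with ⟨rfl, rfl⟩ | ⟨rfl, rfl⟩ | ⟨rfl, rfl⟩ | ⟨rfl, rfl⟩ <;> norm_num
  have hb0 : b < 0 := by rcases hbc with ⟨rfl, rfl⟩ | ⟨rfl, rfl⟩ | ⟨rfl, rfl⟩ | ⟨rfl, rfl⟩ <;> norm_num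
  have hc1 : -1 < c := by rcases hbc with ⟨rfl, rfl⟩ | ⟨rfl, rfl⟩ | ⟨rfl, rfl⟩ | ⟨rfl, rfl⟩ <;> norm_num
  have hc0 : c < 0 := by rcases hbc with ⟨rfl, rfl⟩ | ⟨rfl, rfl⟩ | ⟨rfl, rfl⟩ | ⟨rfl, rfl⟩ <;> norm_num
  have hd := (par_of hbc).disj m
  have hmem : ∀ y ∈ SS b c m, ∃ a : ℚ, (a = b ∨ a = c) ∧ ∃ j : ℕ, j < 30 * m ∧ y = a - 1 - j := by
    intro y hy
    rcases mem_union.1 hy with h | h
    · obtain ⟨j, hj, rfl⟩ := mem_image.1 h
      exact ⟨c, Or.inr rfl, j, mem_range.1 hj, rfl⟩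
    · obtain ⟨j, hj, rfl⟩ := mem_image.1 h
      exact ⟨b, Or.inl rfl, j, by have := mem_range.1 hj; omega, rfl⟩
  have hneg : ∀ y ∈ SS b c m, y < 0 := by
    intro y hy
    obtain ⟨a, ha, j, -, rfl⟩ := hmem y hy
    have hj : (0 : ℚ) ≤ j := Nat.cast_nonneg j
    rcases ha with rfl | rfl <;> linarith
  obtain ⟨P, hP, eP⟩ := F5.Identity.exists_ZZ_poly b c m l
  have hcard : P.natDegree < (SS b c m).card := by
    unfold SS
    rw [card_union_of_disjoint hd, Caab.card_Sset, Caab.card_Sset]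
    omega
  set co : ℚ → ℚ := fun y => ZZ b c m y * y ^ l / ∏ z ∈ (SS b c m).erase y, (y - z) with hco
  have hterm : ∀ k : ℕ, ww (b : ℝ) (c : ℝ) m k * (k : ℝ) ^ l =
      ∑ y ∈ SS b c m, (co y : ℝ) * (tt (b : ℝ) (c : ℝ) k / ((k : ℝ) - (y : ℝ))) := by
    intro k
    have hk : (0 : ℚ) ≤ k := Nat.cast_nonneg k
    have h1 := pfrac (SS b c m) P hcard k fun y hy => by have := hneg y hy; linarith
    simp only [eP] at h1
    have h2 : ∏ y ∈ SS b c m, ((k : ℚ) - y) =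
        rf ((k : ℚ) + 1 - c) (30 * m) * rf ((k : ℚ) + 1 - b) (29 * m) := by
      unfold SS
      rw [prod_union hd, Caab.Identity.prod_Sset, Caab.Identity.prod_Sset]
    rw [h2] at h1
    have h3 := congrArg (fun q : ℚ => tt (b : ℝ) (c : ℝ) k * (q : ℝ)) h1
    simp only [Rat.cast_sum, mul_sum] at h3
    refine Eq.trans ?_ (h3.trans (sum_congr rfl fun y _ => ?_))
    · unfold ww tt ZZ
      simp only [Rat.cast_div, Rat.cast_mul, rf_cast, Caab.rf_add]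
      push_cast
      have e1 : (b : ℝ) + k = k + b := by ring
      have e2 : (c : ℝ) + k = k + c := by ring
      have e3 : 1 - (b : ℝ) + k = k + 1 - b := by ring
      have e4 : 1 - (c : ℝ) + k = k + 1 - c := by ring
      rw [e1, e2, e3, e4]
      ring
    · simp only [hco]
      push_cast
      ring
  simp only [hterm]
  have hsum := hasSum_sum (s := SS b c m)
    (f := fun (y : ℚ) (k : ℕ) => (co y : ℝ) * (tt (b : ℝ) (c : ℝ) k / ((k : ℝ) - (y : ℝ))))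
    (a := fun y : ℚ => (co y : ℝ) * TT b c y)
    fun y hy => (hasSum_TT hΛ (by exact_mod_cast hneg y hy)).mul_left _
  refine Eq.subst (motive := fun t : ℝ => HasSum _ t) ?_ hsum
  unfold LL dd
  rw [Rat.cast_sum]
  refine sum_congr rfl fun y hy => ?_
  obtain ⟨a, ha, j, hj, hy'⟩ := hmem y hy
  rw [TT_eq hb1 hb0 hc1 hc0 hΛ ha j (30 * m) hj y hy', ← Rat.cast_mul]
  congr 1
  simp only [hco, XX]
  ring

end Pool.Agent.Caab.F5
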