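import Pool.Agent.Lib.MP_caab05_ag.F5.Large

namespace Pool.Agent.Caab.F5

open Finset

namespace Large

variable {p : ℕ} [hp : Fact p.Prime]

theorem good_prod_pow {Y0 : Finset ℚ} {f : ℚ → ℚ} {r : ℝ} (h : Good p Y0 f r) (s : Finset ℕ)
    (e : ℕ → ℕ) (hw : ∀ y ∈ Y0, V p y 0) :
    Good p Y0 (fun y => f y * ∏ x ∈ s, (y - x) ^ e x) r := by
  induction s using Finset.induction_on with
  | empty => simpa using h
  | insert a s ha ih =>
    have := ih.mul_pow_add (-(a : ℚ)) (e a) fun y hy => (hw y hy).add (V.nat a).neg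
    exact this.congr fun y _ => by rw [prod_insert ha, sub_eq_add_neg y a]; ring

theorem bounds {b c : ℚ} (hbc : BC b c) {m : ℕ}
    {y : ℚ} (hy : y ∈ SS b c m) : -(30 * m) - 1 ≤ y ∧ y ≤ -1 := by
  have hm : (0 : ℚ) ≤ m := by positivity
  rcases mem_SS.1 hy with ⟨j, hj, rfl⟩ | ⟨j, hj, rfl⟩
  · have h1 : (j : ℚ) + 1 ≤ 30 * m := by exact_mod_cast hj
    have h2 : (0 : ℚ) ≤ j := by positivity
    rcases hbc with ⟨rfl, rfl⟩ | ⟨rfl, rfl⟩ | ⟨rfl, rfl⟩ | ⟨rfl, rfl⟩ <;> constructor <;> linarith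
  · have h1 : (j : ℚ) + 1 ≤ 29 * m := by exact_mod_cast hj
    have h2 : (0 : ℚ) ≤ j := by positivity
    rcases hbc with ⟨rfl, rfl⟩ | ⟨rfl, rfl⟩ | ⟨rfl, rfl⟩ | ⟨rfl, rfl⟩ <;> constructor <;> linarith

/-- a class without extra poles contributes an integer -/
theorem pure_class (h5 : Nat.Coprime 5 p) {b c : ℚ} (hP : Par b c) {β γ : ℤ} (hβ : Cg p b β)
    (hγ : Cg p c γ) {m s ε x : ℕ} (hε : ε ≤ 1) {Y : Finset ℚ} (hY : Y ⊆ SS b c m)
    (hx : ∀ y ∈ Y, Cg p y x)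
    (hx' : ∀ y ∈ Y, ∀ z ∈ SS b c m \ Y, y - z ≠ 0 ∧ padicValRat p (y - z) ≤ 0)
    (h1 : ∀ i : ℕ, 6 * m ≤ i → i ≤ s → ¬ (p : ℤ) ∣ x + β + i)
    (h2 : ∀ i : ℕ, 5 * m ≤ i → i ≤ s → ¬ (p : ℤ) ∣ x + γ + i)
    (h3 : ε = 1 → 7 * m ≤ s → ¬ (p : ℤ) ∣ x + 1 + s) (e : ℕ → ℕ) (t : ℕ) :
    V p (∑ y ∈ Y, FF b c m s ε y * (y ^ t * ∏ x ∈ range p, (y - x) ^ e x) /
      ∏ z ∈ (SS b c m).erase y, (y - z)) 0 := by
  rw [dd_part (fun y => FF b c m s ε y * (y ^ t * ∏ x ∈ range p, (y - x) ^ e x)) hY]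
  have g1 := (Good.one (p := p) (Y0 := Y)).mul_ratio (range (7 * m))
    (if ε = 0 then ∅ else {s}) (w := fun i => 1 + i)
    (fun i _ y hy => ((hx y hy).add ((Cg.one p).add (Cg.nat p i))).V0 h5)
    (fun i _ y hy e => hP.add_one_ne (hY hy) (-(i : ℤ)) (by push_cast; linarith))
    (fun i hi hi' y hy => by
      have he : ε = 1 := by
        by_contra h
        have : ε = 0 := by omega
        simp [this] at hi
      have : i = s := by simpa [he] using hi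
      subst this
      refine (((hx y hy).add ((Cg.one p).add (Cg.nat p i))).unit h5 ?_).2
      rw [← add_assoc]
      exact h3 he (by simpa using hi'))
  have g2 := g1.mul_ratio (range (6 * m)) (range (s + 1)) (w := fun i => b + i)
    (fun i _ y hy => ((hx y hy).add (hβ.add (Cg.nat p i))).V0 h5)
    (fun i _ y hy e => hP.add_b_ne (hY hy) (-(i : ℤ)) (by push_cast; linarith))
    (fun i hi hi' y hy => by
      refine (((hx y hy).add (hβ.add (Cg.nat p i))).unit h5 ?_).2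
      rw [← add_assoc]
      exact h1 i (by simpa using hi') (by have := mem_range.1 hi; omega))
  have g3 := g2.mul_ratio (range (5 * m)) (range (s + 1)) (w := fun i => c + i)
    (fun i _ y hy => ((hx y hy).add (hγ.add (Cg.nat p i))).V0 h5)
    (fun i _ y hy e => hP.add_c_ne (hY hy) (-(i : ℤ)) (by push_cast; linarith))
    (fun i hi hi' y hy => by
      refine (((hx y hy).add (hγ.add (Cg.nat p i))).unit h5 ?_).2
      rw [← add_assoc]
      exact h2 i (by simpa using hi') (by have := mem_range.1 hi; omega))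
  have g4 := (g3.mul_rf (1 - b) s fun y hy =>
    ((hx y hy).add ((Cg.one p).sub hβ)).V0 h5).mul_rf (1 - c) s fun y hy =>
    ((hx y hy).add ((Cg.one p).sub hγ)).V0 h5
  have g5 := good_prod_pow (g4.mul_pow_add 0 t fun y hy => by simpa using (hx y hy).V0 h5)
    (range p) e fun y hy => (hx y hy).V0 h5
  have g6 := g5.div_prod_add (SS b c m \ Y) (w := fun z => -z) fun z hz y hy => by
    simpa only [sub_eq_add_neg] using hx' y hy z hz
  refine (g6.congr fun y _ => ?_).out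
  have e1 : ∏ i ∈ (if ε = 0 then ∅ else {s} : Finset ℕ), (y + (1 + (i : ℚ))) = (y + 1 + s) ^ ε := by
    rcases Nat.le_one_iff_eq_zero_or_eq_one.1 hε with rfl | rfl
    · simp
    · simp [add_assoc]
  rw [e1]
  simp only [FF, ZZ, piS, rf, add_assoc, add_zero, sub_eq_add_neg]
  ring

/-- termwise bound in a class containing an extra pole -/
theorem mixed_term (h5 : Nat.Coprime 5 p) {b c : ℚ} (hbc : BC b c)
    (nb nc kb kc β γ : ℤ) (hn : KK nb nc) (hk : KK kb kc) {m s ε x : ℕ}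
    (h30 : 30 ≤ p) (hm : 1 ≤ m) (hpm : 160 * m < p ^ 2) (hβ' : 5 * β = kb * p - nb)
    (hγ' : 5 * γ = kc * p - nc) (hβ : Cg p b β) (hγ : Cg p c γ) (hε : ε ≤ 1) (hs : s < 30 * m)
    (hxp : x < p) {y : ℚ} (hy : y ∈ SS b c m) (hx : Cg p y x)
    (hT : (∃ i : ℕ, 6 * m ≤ i ∧ i ≤ s ∧ (p : ℤ) ∣ x + β + i) ∨
      (∃ i : ℕ, 5 * m ≤ i ∧ i ≤ s ∧ (p : ℤ) ∣ x + γ + i) ∨
      (ε = 1 ∧ 7 * m ≤ s ∧ (p : ℤ) ∣ x + 1 + s)) :
    V p (FF b c m s ε y / ∏ z ∈ (SS b c m).erase y, (y - z)) (PhiX kb kc β γ p m x) := by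
  have hP := par_of hbc
  have hp0 : 0 < p := by omega
  by_cases h1 : rf (y + 1 - b) s = 0
  · rw [FF_eq_zero (Or.inl h1), zero_div]; exact V.zero _
  by_cases h2 : rf (y + 1 - c) s = 0
  · rw [FF_eq_zero (Or.inr h2), zero_div]; exact V.zero _
  refine V.of_le ?_
  rw [val_term hP hy h1 h2]
  obtain ⟨y1, y2⟩ := bounds hbc hy
  have hm' : (1 : ℚ) ≤ m := by exact_mod_cast hm
  have hs' : (s : ℚ) + 1 ≤ 30 * m := by exact_mod_cast hs
  have hs0 : (0 : ℚ) ≤ s := by positivity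
  have b1 : -1 ≤ b ∧ b ≤ 0 := by rcases hbc with ⟨rfl, rfl⟩ | ⟨rfl, rfl⟩ | ⟨rfl, rfl⟩ | ⟨rfl, rfl⟩ <;> norm_num
  have c1 : -1 ≤ c ∧ c ≤ 0 := by rcases hbc with ⟨rfl, rfl⟩ | ⟨rfl, rfl⟩ | ⟨rfl, rfl⟩ | ⟨rfl, rfl⟩ <;> norm_num
  have l1 := rv_ge_cn h5 (hx.add (Cg.one p)) (rf_ne_zero (hP.add_one_ne hy) (7 * m))
  have l2 := rv_ge_cn h5 (hx.add hβ) (rf_ne_zero (hP.add_b_ne hy) (6 * m))
  have l3 := rv_ge_cn h5 (hx.add hγ) (rf_ne_zero (hP.add_c_ne hy) (5 * m))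
  have l4 := rv_ge_cn h5 ((hx.add (Cg.one p)).sub hβ) h1
  have l5 := rv_ge_cn h5 ((hx.add (Cg.one p)).sub hγ) h2
  have u1 := rv_le_cn h5 hpm (hx.add hβ) (N := s + 1) (by linarith) (by push_cast; linarith)
  have u2 := rv_le_cn h5 hpm (hx.add hγ) (N := s + 1) (by linarith) (by push_cast; linarith)
  have u3 := rv_le_cn h5 hpm ((hx.add (Cg.one p)).sub hγ) (N := 30 * m) (by linarith)
    (by push_cast; linarith)
  have u4 := rv_le_cn h5 hpm ((hx.add (Cg.one p)).sub hβ) (N := 29 * m) (by linarith)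
    (by push_cast; linarith)
  have u5 := ((hx.add (Cg.one p)).add (Cg.nat p s)).val_le h5
    (size hpm (by linarith) (by linarith))
  -- the pole itself
  have hS : (((x : ℤ) + s - β) / p < (x - β + 29 * m) / p ∨
      ((x : ℤ) + s - γ) / p < (x - γ + 30 * m) / p) ∧
      rv p (y + 1 - c) (30 * m) + rv p (y + 1 - b) (29 * m) + 1 ≤
        (x + 1 - γ + ((30 * m : ℕ) : ℤ) - 1) / p - (x + 1 - γ - 1) / p +
        ((x + 1 - β + ((29 * m : ℕ) : ℤ) - 1) / p - (x + 1 - β - 1) / p) := by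
    rcases mem_SS.1 hy with ⟨j, hj, e⟩ | ⟨j, hj, e⟩
    · have h0 : y + 1 - c + j = 0 := by rw [e]; ring
      have hjs : s ≤ j := by
        by_contra hlt
        exact h2 (prod_eq_zero (i := j) (mem_range.2 (by omega)) h0)
      have hd : (p : ℤ) ∣ x + 1 - γ + j := by
        by_contra hcon
        exact ((((hx.add (Cg.one p)).sub hγ).add (Cg.nat p j)).unit h5 hcon).1 h0
      have := rv_lt_cn h5 hpm ((hx.add (Cg.one p)).sub hγ) (N := 30 * m) (by linarith)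
        (by push_cast; linarith) hj h0
      exact ⟨Or.inr (div_lt_of_dvd hp0 (by omega) (by omega) hd), by omega⟩
    · have h0 : y + 1 - b + j = 0 := by rw [e]; ring
      have hjs : s ≤ j := by
        by_contra hlt
        exact h1 (prod_eq_zero (i := j) (mem_range.2 (by omega)) h0)
      have hd : (p : ℤ) ∣ x + 1 - β + j := by
        by_contra hcon
        exact ((((hx.add (Cg.one p)).sub hβ).add (Cg.nat p j)).unit h5 hcon).1 h0
      have := rv_lt_cn h5 hpm ((hx.add (Cg.one p)).sub hβ) (N := 29 * m) (by linarith)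
        (by push_cast; linarith) hj h0
      exact ⟨Or.inl (div_lt_of_dvd hp0 (by omega) (by omega) hd), by omega⟩
  set δ : ℤ := if ε = 1 ∧ (p : ℤ) ∣ x + 1 + s then 1 else 0 with hδ
  have u6 : (ε : ℤ) * padicValRat p (y + 1 + s) ≤ δ := by
    rcases Nat.le_one_iff_eq_zero_or_eq_one.1 hε with rfl | rfl
    · simp [hδ]
    · simpa [hδ] using u5
  have key := PhiX_le nb nc kb kc β γ hn hk p m x s h30 hβ' hγ' δ
    (by
      rw [hδ]
      split_ifs with h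
      · exact Or.inr ⟨rfl, h.2⟩
      · exact Or.inl rfl)
    (by
      rcases hT with ⟨i, i1, i2, hd⟩ | ⟨i, i1, i2, hd⟩ | ⟨e1, e2, hd⟩
      · exact Or.inl (div_lt_of_dvd hp0 (by omega) (by omega) hd)
      · exact Or.inr (Or.inl (div_lt_of_dvd hp0 (by omega) (by omega) hd))
      · exact Or.inr (Or.inr ⟨by rw [hδ, if_pos ⟨e1, hd⟩],
          div_lt_of_dvd hp0 (by omega) (by omega) hd⟩))
    hS.1
  have h0 : ((x : ℤ) + 1 - 1) / p = 0 := Int.ediv_eq_zero_of_lt (by omega) (by omega)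
  have h7 := hS.2
  push_cast at l1 l2 l3 l4 l5 u1 u2 h7
  rw [h0, show (x : ℤ) + 1 + 7 * m - 1 = x + 7 * m by ring] at l1
  rw [show (x : ℤ) + 1 - β + s - 1 = x + s - β by ring] at l4
  rw [show (x : ℤ) + 1 - γ + s - 1 = x + s - γ by ring] at l5
  rw [show (x : ℤ) + β + (s + 1) - 1 = x + s + β by ring] at u1
  rw [show (x : ℤ) + γ + (s + 1) - 1 = x + s + γ by ring] at u2
  rw [show (x : ℤ) + 1 - γ + 30 * m - 1 = x - γ + 30 * m by ring,
    show (x : ℤ) + 1 - β + 29 * m - 1 = x - β + 29 * m by ring] at h7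
  exact_mod_cast (by linarith : PhiX kb kc β γ p m x ≤ _)

end Large

theorem BC_of {b c : ℚ} {nb nc : ℤ} (hn : KK nb nc) (hbb : b = -nb / 5) (hcc : c = -nc / 5) :
    BC b c := by
  unfold BC
  rcases hn with ⟨rfl, rfl⟩ | ⟨rfl, rfl⟩ | ⟨rfl, rfl⟩ | ⟨rfl, rfl⟩ <;> simp [hbb, hcc]

open Large in
theorem large (b c : ℚ) (nb nc kb kc β γ : ℤ) (hn : KK nb nc)
    (hbb : b = -nb / 5) (hcc : c = -nc / 5) (hk : KK kb kc) (p m : ℕ) (hp : p.Prime) (h30 : 30 ≤ p)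
    (hm : 1 ≤ m) (hpm : 160 * m < p ^ 2) (hβ' : 5 * β = kb * p - nb) (hγ' : 5 * γ = kc * p - nc)
    (a1 a2 lam : ℤ) (hlam : lam ≤ 0) :
    V p (DD b c a1 a2 m) (ebound kb kc β γ p m lam : ℝ) := by
  classical
  have : Fact p.Prime := ⟨hp⟩
  have hbc : BC b c := BC_of hn hbb hcc
  have hP := par_of hbc
  have h5 : Nat.Coprime 5 p := by
    rw [Nat.coprime_comm, hp.coprime_iff_not_dvd]
    exact fun h => absurd (Nat.le_of_dvd (by norm_num) h) (by omega)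
  have hβ : Cg p b β := ⟨-kb, by
    have : (5 * β : ℚ) = kb * p - nb := by exact_mod_cast hβ'
    rw [hbb]; push_cast; linear_combination (-1) * this⟩
  have hγ : Cg p c γ := ⟨-kc, by
    have : (5 * γ : ℚ) = kc * p - nc := by exact_mod_cast hγ'
    rw [hcc]; push_cast; linear_combination (-1) * this⟩
  have hp' : (0 : ℤ) < p := by exact_mod_cast hp.pos
  have hcl : ∀ y : ℚ, ∃ x : ℕ, y ∈ SS b c m → x < p ∧ Cg p y x := by
    intro y
    by_cases hy : y ∈ SS b c m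
    · have : ∃ z : ℤ, Cg p y z := by
        rcases mem_SS.1 hy with ⟨j, -, rfl⟩ | ⟨j, -, rfl⟩
        · exact ⟨_, (hγ.sub (Cg.one p)).sub (Cg.nat p j)⟩
        · exact ⟨_, (hβ.sub (Cg.one p)).sub (Cg.nat p j)⟩
      obtain ⟨z, hz⟩ := this
      have h1 := Int.emod_nonneg z hp'.ne'
      have h2 := Int.emod_lt_of_pos z hp'
      refine ⟨(z % p).toNat, fun _ => ⟨by omega, ?_⟩⟩
      rw [Int.toNat_of_nonneg h1]
      exact hz.emod
    · exact ⟨0, fun h => absurd h hy⟩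
  choose cl hcl using hcl
  refine V_DD_levels (fun x => PhiX kb kc β γ p m x) lam hlam fun e t l hl hle => ?_
  refine V_LL a1 a2 fun s hs ε hε => ?_
  rw [dd, ← sum_fiberwise_of_maps_to (t := range p) (g := cl)
    fun y hy => mem_range.2 (hcl y hy).1]
  refine V.sum fun x hx => ?_
  have hxp := mem_range.1 hx
  have hY : ∀ y ∈ (SS b c m).filter (fun y => cl y = x), Cg p y x := fun y hy => by
    obtain ⟨h1, rfl⟩ := mem_filter.1 hy
    exact (hcl y h1).2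
  by_cases hT : (∃ i : ℕ, 6 * m ≤ i ∧ i ≤ s ∧ (p : ℤ) ∣ x + β + i) ∨
      (∃ i : ℕ, 5 * m ≤ i ∧ i ≤ s ∧ (p : ℤ) ∣ x + γ + i) ∨
      (ε = 1 ∧ 7 * m ≤ s ∧ (p : ℤ) ∣ x + 1 + s)
  · refine V.sum fun y hy => ?_
    have h1 := mixed_term h5 hbc nb nc kb kc β γ hn hk h30 hm hpm hβ' hγ' hβ hγ hε hs
      hxp (mem_filter.1 hy).1 (hY y hy) hT
    have h2 : V p (y ^ t * ∏ x ∈ range p, (y - x) ^ e x) (e x) := by
      rw [← mul_prod_erase _ _ hx]
      have a1 := (((hY y hy).V0 h5).pow t)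
      have a2 := ((((hY y hy).sub (Cg.nat p x)).V1 h5 (by simp)).pow (e x))
      have a3 : V p (∏ x' ∈ (range p).erase x, (y - x') ^ e x') 0 := V.prod0 fun x' _ => by
        simpa using ((((hY y hy).sub (Cg.nat p x')).V0 h5).pow (e x'))
      simpa using a1.mul (a2.mul a3)
    rw [mul_div_right_comm]
    exact (h1.mul h2).mono (hle x hxp)
  · push Not at hT
    refine (pure_class h5 hP hβ hγ hε (filter_subset _ _) hY (fun y hy z hz => ?_)
      hT.1 hT.2.1 hT.2.2 e t).mono hl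
    obtain ⟨hz1, hz2⟩ := mem_sdiff.1 hz
    have hne : cl z ≠ x := fun h => hz2 (mem_filter.2 ⟨hz1, h⟩)
    refine ((hY y hy).sub (hcl z hz1).2).unit h5 fun hd => hne ?_
    have h3 := (hcl z hz1).1
    have := Int.eq_zero_of_abs_lt_dvd hd (abs_lt.2 ⟨by omega, by omega⟩)
    omega

end Pool.Agent.Caab.F5
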