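import Pool.Agent.Lib.MP_caab05_ag.F5.Defs

/-!
The verified cell checker for the middle range of primes (MP_caab05_ag, job 8).
-/

namespace Pool.Agent.Caab.F5

open Finset Filter Topology

namespace Mid

lemma hh_nonneg (t : ℤ) : 0 ≤ hh t := by
  unfold hh
  split_ifs
  · exact le_rfl
  · positivity

lemma hh_le (t : ℤ) (ht : t ≤ 25) : hh t ≤ 169 := by
  unfold hh
  split_ifs with h
  · norm_num
  · have h1 : (t + 1) ^ 2 ≤ 26 ^ 2 := by
      apply pow_le_pow_left₀ <;> omega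
    omega

lemma ind_bounds (a b : ℤ) : 0 ≤ ind a b ∧ ind a b ≤ 1 := by
  unfold ind
  split_ifs <;> omega

lemma phiStep_ge (kb kc fb fc eb ec base θ r : ℤ) (hr : min 0 (base - 3) ≤ r) :
    min 0 (base - 3) ≤ phiStep kb kc fb fc eb ec base θ r := by
  unfold phiStep
  have h1 := ind_bounds (5 - kb) θ
  have h2 := ind_bounds (5 - kc) θ
  have h3 := ind_bounds kb θ
  have h4 := ind_bounds kc θ
  split_ifs
  · omega
  · exact hr

lemma Phi_ge (kb kc a1 fb fc eb ec : ℤ) :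
    min 0 (a1 + fb + fc - eb - ec - 3) ≤ Phi kb kc a1 fb fc eb ec := by
  unfold Phi
  iterate 5 apply phiStep_ge
  split_ifs <;> omega

/-- the hypotheses on a prime and its two residues -/
structure Hyp (kb kc β γ : ℤ) (p m : ℕ) : Prop where
  hk : KK kb kc
  hp : 30 ≤ p
  hpm : 4 * m ≤ p
  b1 : kb * p - 4 ≤ 5 * β
  b2 : 5 * β ≤ kb * p - 1
  c1 : kc * p - 4 ≤ 5 * γ
  c2 : 5 * γ ≤ kc * p - 1

lemma PhiX_ge {kb kc β γ : ℤ} {p m : ℕ} (H : Hyp kb kc β γ p m) {x : ℕ} (hx : x < p) :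
    -25 ≤ PhiX kb kc β γ p m x := by
  obtain ⟨hk, hp, hpm, b1, b2, c1, c2⟩ := H
  have hp0 : (0 : ℤ) < p := by omega
  have hβ : 1 ≤ β := by rcases hk with ⟨rfl, rfl⟩ | ⟨rfl, rfl⟩ | ⟨rfl, rfl⟩ | ⟨rfl, rfl⟩ <;> omega
  have hγ : 1 ≤ γ := by rcases hk with ⟨rfl, rfl⟩ | ⟨rfl, rfl⟩ | ⟨rfl, rfl⟩ | ⟨rfl, rfl⟩ <;> omega
  have h1 : 0 ≤ ((x : ℤ) + 7 * m) / p := Int.ediv_nonneg (by omega) hp0.le
  have h2 : 0 ≤ ((x : ℤ) + β + 6 * m - 1) / p := Int.ediv_nonneg (by omega) hp0.le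
  have h3 : 0 ≤ ((x : ℤ) + γ + 5 * m - 1) / p := Int.ediv_nonneg (by omega) hp0.le
  have h4 : ((x : ℤ) - β + 29 * m) / p < 9 := Int.ediv_lt_of_lt_mul hp0 (by omega)
  have h5 : ((x : ℤ) - γ + 30 * m) / p < 9 := Int.ediv_lt_of_lt_mul hp0 (by omega)
  have h := Phi_ge kb kc (((x : ℤ) + 7 * m) / p) (((x : ℤ) + β + 6 * m - 1) / p)
    (((x : ℤ) + γ + 5 * m - 1) / p) (((x : ℤ) - β + 29 * m) / p) (((x : ℤ) - γ + 30 * m) / p)
  unfold PhiX
  omega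

/-- a linear form `u m + v p` is nonnegative at both ends -/
def nn (d1 n1 d2 n2 u v : ℤ) : Bool :=
  decide (0 ≤ u * d1 + v * n1) && decide (0 ≤ u * d2 + v * n2)

lemma nn_spec {d1 n1 d2 n2 u v m p : ℤ} (h : nn d1 n1 d2 n2 u v = true) (hd1 : 0 < d1)
    (hd2 : 0 < d2) (hm : 0 ≤ m) (h1 : n1 * m ≤ d1 * p) (h2 : d2 * p ≤ n2 * m) :
    0 ≤ u * m + v * p := by
  unfold nn at h
  simp only [Bool.and_eq_true, decide_eq_true_eq] at h
  obtain ⟨ha, hb⟩ := h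
  rcases le_total 0 v with hv | hv
  · have e : 0 ≤ d1 * (u * m + v * p) := by
      have := mul_nonneg hm ha
      have := mul_nonneg hv (sub_nonneg.2 h1)
      nlinarith
    exact (mul_nonneg_iff_of_pos_left hd1).1 e
  · have e : 0 ≤ d2 * (u * m + v * p) := by
      have := mul_nonneg hm hb
      have := mul_nonneg (neg_nonneg.2 hv) (sub_nonneg.2 h2)
      nlinarith
    exact (mul_nonneg_iff_of_pos_left hd2).1 e

/-- the value of a floor inside a cell -/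
def qq (d n : ℤ) (L L' : ℤ × ℤ) (u v : ℤ) : ℤ :=
  ((L.1 + L'.1 + 2 * u) * d + (L.2 + L'.2 + 2 * v) * n) / (10 * n)

def flOK (d1 n1 d2 n2 : ℤ) (L L' : ℤ × ℤ) (u v : ℤ) : Bool :=
  nn d1 n1 d2 n2 (L.1 + u) (L.2 + v - 5 * qq (d1 + d2) (n1 + n2) L L' u v) &&
    nn d1 n1 d2 n2 (-L'.1 - u) (5 * (qq (d1 + d2) (n1 + n2) L L' u v + 1) - L'.2 - v)

lemma flOK_spec {d1 n1 d2 n2 u v m p : ℤ} {L L' : ℤ × ℤ} (h : flOK d1 n1 d2 n2 L L' u v = true)
    (hd1 : 0 < d1) (hd2 : 0 < d2) (hm : 0 ≤ m) (h1 : n1 * m ≤ d1 * p) (h2 : d2 * p ≤ n2 * m)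
    (hp : 0 < p) {x T : ℤ} (hx1 : L.1 * m + L.2 * p + 21 ≤ 5 * x)
    (hx2 : 5 * x < L'.1 * m + L'.2 * p - 9) (hT1 : 5 * x + u * m + v * p - 21 ≤ 5 * T)
    (hT2 : 5 * T ≤ 5 * x + u * m + v * p + 9) :
    T / p = qq (d1 + d2) (n1 + n2) L L' u v := by
  unfold flOK at h
  simp only [Bool.and_eq_true] at h
  have ha := nn_spec h.1 hd1 hd2 hm h1 h2
  have hb := nn_spec h.2 hd1 hd2 hm h1 h2
  generalize qq (d1 + d2) (n1 + n2) L L' u v = q at ha hb ⊢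
  have e1 : q * p ≤ T := by nlinarith
  have e2 : T < (q + 1) * p := by nlinarith
  have e3 : q ≤ T / p := Int.le_ediv_of_mul_le hp e1
  have e4 : T / p < q + 1 := Int.ediv_lt_of_lt_mul hp e2
  omega

def cellOK (kb kc d1 n1 d2 n2 : ℤ) (L L' : ℤ × ℤ) : Bool :=
  nn d1 n1 d2 n2 (L'.1 - L.1) (L'.2 - L.2) && flOK d1 n1 d2 n2 L L' 35 0 &&
    flOK d1 n1 d2 n2 L L' 30 kb && flOK d1 n1 d2 n2 L L' 25 kc &&
    flOK d1 n1 d2 n2 L L' 145 (-kb) && flOK d1 n1 d2 n2 L L' 150 (-kc)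

def cellH (kb kc d n lam : ℤ) (L L' : ℤ × ℤ) : ℤ :=
  hh (lam - Phi kb kc (qq d n L L' 35 0) (qq d n L L' 30 kb) (qq d n L L' 25 kc)
    (qq d n L L' 145 (-kb)) (qq d n L L' 150 (-kc)))

/-- the part of the sum with `A ≤ 5 x < B` -/
def SS' (g : ℕ → ℤ) (p : ℕ) (A B : ℤ) : ℤ :=
  ∑ x ∈ range p, if A ≤ 5 * (x : ℤ) ∧ 5 * (x : ℤ) < B then g x else 0

lemma SS'_split (g : ℕ → ℤ) (hg : ∀ x, 0 ≤ g x) (p : ℕ) (A B C : ℤ) :
    SS' g p A C ≤ SS' g p A B + SS' g p B C := by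
  unfold SS'
  rw [← sum_add_distrib]
  refine sum_le_sum fun x _ => ?_
  have := hg x
  split_ifs <;> omega

lemma SS'_const (c : ℤ) (hc : 0 ≤ c) (p : ℕ) (A B : ℤ) (hAB : A ≤ B) :
    5 * SS' (fun _ => c) p A B ≤ c * (B - A + 5) := by
  unfold SS'
  rw [← sum_filter, sum_const, nsmul_eq_mul]
  have hcard : ((range p).filter (fun x : ℕ => A ≤ 5 * (x : ℤ) ∧ 5 * (x : ℤ) < B)).card ≤
      (Finset.Ico ((A + 4) / 5) ((B + 4) / 5)).card := by
    refine card_le_card_of_injOn (fun x : ℕ => (x : ℤ)) ?_ ?_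
    · intro x hx
      simp only [coe_filter, Set.mem_ofPred_eq] at hx
      simp only [coe_Ico, Set.mem_Ico]
      omega
    · intro x _ y _ h
      exact Nat.cast_injective (R := ℤ) h
  rw [Int.card_Ico] at hcard
  have h2 : 5 * (((range p).filter
      (fun x : ℕ => A ≤ 5 * (x : ℤ) ∧ 5 * (x : ℤ) < B)).card : ℤ) ≤ B - A + 5 := by omega
  nlinarith

lemma cell_spec {kb kc d1 n1 d2 n2 lam : ℤ} {L L' : ℤ × ℤ}
    (h : cellOK kb kc d1 n1 d2 n2 L L' = true) (hd1 : 0 < d1) (hd2 : 0 < d2) (hlam : lam ≤ 0)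
    {β γ : ℤ} {p m : ℕ} (H : Hyp kb kc β γ p m) (h1 : n1 * m ≤ d1 * p) (h2 : d2 * p ≤ n2 * m) :
    5 * SS' (fun x => hh (lam - PhiX kb kc β γ p m x)) p (L.1 * m + L.2 * p)
        (L'.1 * m + L'.2 * p) ≤
      cellH kb kc (d1 + d2) (n1 + n2) lam L L' * (L'.1 - L.1) * m +
        cellH kb kc (d1 + d2) (n1 + n2) lam L L' * (L'.2 - L.2) * p +
          (5 * cellH kb kc (d1 + d2) (n1 + n2) lam L L' + 169 * 54) := by
  unfold cellOK at h
  simp only [Bool.and_eq_true] at h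
  obtain ⟨⟨⟨⟨⟨h0, f1⟩, f2⟩, f3⟩, f4⟩, f5⟩ := h
  have hm : (0 : ℤ) ≤ m := by positivity
  have hp : (0 : ℤ) < p := by have := H.hp; omega
  have hAB := nn_spec h0 hd1 hd2 hm h1 h2
  set A := L.1 * m + L.2 * p with hA
  set B := L'.1 * m + L'.2 * p with hB
  set c := cellH kb kc (d1 + d2) (n1 + n2) lam L L' with hc
  have hc0 : 0 ≤ c := hh_nonneg _
  have hAB' : A ≤ B := by rw [hA, hB]; linarith
  have key : SS' (fun x => hh (lam - PhiX kb kc β γ p m x)) p A B ≤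
      SS' (fun _ => c) p A B + SS' (fun _ => 169) p A (A + 21) +
        SS' (fun _ => 169) p (B - 9) B := by
    unfold SS'
    rw [← sum_add_distrib, ← sum_add_distrib]
    refine sum_le_sum fun x hx => ?_
    have hx' : x < p := mem_range.1 hx
    have g1 : hh (lam - PhiX kb kc β γ p m x) ≤ 169 := by
      have := PhiX_ge H hx'
      exact hh_le _ (by omega)
    have g0 := hh_nonneg (lam - PhiX kb kc β γ p m x)
    by_cases hin : A + 21 ≤ 5 * (x : ℤ) ∧ 5 * (x : ℤ) < B - 9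
    · have g2 : hh (lam - PhiX kb kc β γ p m x) = c := by
        obtain ⟨-, -, -, b1, b2, c1, c2⟩ := H
        rw [hc]
        unfold cellH PhiX
        rw [flOK_spec f1 hd1 hd2 hm h1 h2 hp hin.1 hin.2 (by linarith) (by linarith),
          flOK_spec f2 hd1 hd2 hm h1 h2 hp hin.1 hin.2 (by linarith) (by linarith),
          flOK_spec f3 hd1 hd2 hm h1 h2 hp hin.1 hin.2 (by linarith) (by linarith),
          flOK_spec f4 hd1 hd2 hm h1 h2 hp hin.1 hin.2 (by linarith) (by linarith),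
          flOK_spec f5 hd1 hd2 hm h1 h2 hp hin.1 hin.2 (by linarith) (by linarith)]
      beta_reduce
      rw [g2]
      split_ifs <;> omega
    · beta_reduce
      split_ifs <;> omega
  have k1 := SS'_const c hc0 p A B hAB'
  have k2 := SS'_const 169 (by norm_num) p A (A + 21) (by omega)
  have k3 := SS'_const 169 (by norm_num) p (B - 9) B (by omega)
  have e : c * (B - A + 5) = c * (L'.1 - L.1) * m + c * (L'.2 - L.2) * p + 5 * c := by
    rw [hA, hB]; ring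
  linarith

def cellsOK (kb kc d1 n1 d2 n2 : ℤ) : ℤ × ℤ → List (ℤ × ℤ) → Bool
  | L, [] => cellOK kb kc d1 n1 d2 n2 L (0, 5)
  | L, L' :: bs => cellOK kb kc d1 n1 d2 n2 L L' && cellsOK kb kc d1 n1 d2 n2 L' bs

def cellsU (kb kc d n lam : ℤ) : ℤ × ℤ → List (ℤ × ℤ) → ℤ
  | L, [] => cellH kb kc d n lam L (0, 5) * (0 - L.1)
  | L, L' :: bs => cellH kb kc d n lam L L' * (L'.1 - L.1) + cellsU kb kc d n lam L' bs

def cellsV (kb kc d n lam : ℤ) : ℤ × ℤ → List (ℤ × ℤ) → ℤ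
  | L, [] => cellH kb kc d n lam L (0, 5) * (5 - L.2)
  | L, L' :: bs => cellH kb kc d n lam L L' * (L'.2 - L.2) + cellsV kb kc d n lam L' bs

lemma cells_spec {kb kc d1 n1 d2 n2 lam : ℤ} (hd1 : 0 < d1) (hd2 : 0 < d2) (hlam : lam ≤ 0)
    (bs : List (ℤ × ℤ)) : ∀ L : ℤ × ℤ, cellsOK kb kc d1 n1 d2 n2 L bs = true →
    ∃ C : ℤ, ∀ (β γ : ℤ) (p m : ℕ), Hyp kb kc β γ p m → n1 * m ≤ d1 * p → d2 * p ≤ n2 * m →
      5 * SS' (fun x => hh (lam - PhiX kb kc β γ p m x)) p (L.1 * m + L.2 * p) (5 * p) ≤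
        cellsU kb kc (d1 + d2) (n1 + n2) lam L bs * m +
          cellsV kb kc (d1 + d2) (n1 + n2) lam L bs * p + C := by
  induction bs with
  | nil =>
    intro L h
    refine ⟨5 * cellH kb kc (d1 + d2) (n1 + n2) lam L (0, 5) + 169 * 54, ?_⟩
    intro β γ p m H h1 h2
    have := cell_spec (lam := lam) h hd1 hd2 hlam H h1 h2
    simp only [zero_mul, zero_add] at this
    simpa only [cellsU, cellsV] using this
  | cons L' bs ih =>
    intro L h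
    simp only [cellsOK, Bool.and_eq_true] at h
    obtain ⟨C, hC⟩ := ih L' h.2
    refine ⟨5 * cellH kb kc (d1 + d2) (n1 + n2) lam L L' + 169 * 54 + C, ?_⟩
    intro β γ p m H h1 h2
    have k1 := cell_spec (lam := lam) h.1 hd1 hd2 hlam H h1 h2
    have k2 := hC β γ p m H h1 h2
    have k3 := SS'_split (fun x => hh (lam - PhiX kb kc β γ p m x)) (fun x => hh_nonneg _) p
      (L.1 * m + L.2 * p) (L'.1 * m + L'.2 * p) (5 * p)
    simp only [cellsU, cellsV]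
    linarith

lemma row_spec {kb kc d1 n1 d2 n2 lam : ℤ} (hd1 : 0 < d1) (hd2 : 0 < d2) (hlam : lam ≤ 0)
    (bs : List (ℤ × ℤ)) (h : cellsOK kb kc d1 n1 d2 n2 (0, 0) bs = true) :
    ∃ C : ℤ, ∀ (β γ : ℤ) (p m : ℕ), Hyp kb kc β γ p m → n1 * m ≤ d1 * p → d2 * p ≤ n2 * m →
      (100 * lam - cellsU kb kc (d1 + d2) (n1 + n2) lam (0, 0) bs) * m -
        cellsV kb kc (d1 + d2) (n1 + n2) lam (0, 0) bs * p - C ≤
          5 * ebound kb kc β γ p m lam := by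
  obtain ⟨C, hC⟩ := cells_spec hd1 hd2 hlam bs (0, 0) h
  refine ⟨C, fun β γ p m H h1 h2 => ?_⟩
  have k := hC β γ p m H h1 h2
  have e : SS' (fun x => hh (lam - PhiX kb kc β γ p m x)) p
      (((0, 0) : ℤ × ℤ).1 * m + ((0, 0) : ℤ × ℤ).2 * p) (5 * p) =
      ∑ x ∈ range p, hh (lam - PhiX kb kc β γ p m x) := by
    unfold SS'
    refine sum_congr rfl fun x hx => ?_
    have hx' : x < p := mem_range.1 hx
    rw [if_pos]
    simp only [zero_mul, add_zero]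
    omega
  rw [e] at k
  unfold ebound
  linarith

/-- a row of the certificate: left end, right end, multiplier, cell boundaries -/
abbrev Row := ℤ × ℤ × ℤ × ℤ × ℤ × List (ℤ × ℤ)

def rowOK (kb kc : ℤ) : Row → Bool
  | (n1, d1, n2, d2, lam, bs) =>
    decide (0 < d1) && decide (0 < d2) && decide (lam ≤ 0) && decide (4 * d1 ≤ n1) &&
      decide (n1 * d2 ≤ n2 * d1) && decide (n2 ≤ 160 * d2) && cellsOK kb kc d1 n1 d2 n2 (0, 0) bs

def rowVal (kb kc : ℤ) : Row → ℚ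
  | (n1, d1, n2, d2, lam, bs) =>
    ((100 * lam - cellsU kb kc (d1 + d2) (n1 + n2) lam (0, 0) bs : ℤ) : ℚ) / 5 *
        ((n2 : ℚ) / d2 - (n1 : ℚ) / d1) / 4 +
      ((-cellsV kb kc (d1 + d2) (n1 + n2) lam (0, 0) bs : ℤ) : ℚ) / 5 *
        (((n2 : ℚ) / d2) ^ 2 - ((n1 : ℚ) / d1) ^ 2) / 8

def chainOK (kb kc : ℤ) : ℤ → ℤ → List Row → Bool
  | n, d, [] => decide (n = 160) && decide (d = 1)
  | n, d, r :: rs => decide (r.1 = n) && decide (r.2.1 = d) && rowOK kb kc r &&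
      chainOK kb kc r.2.2.1 r.2.2.2.1 rs

def chainVal (kb kc : ℤ) : List Row → ℚ
  | [] => 0
  | r :: rs => rowVal kb kc r + chainVal kb kc rs

end Mid

end Pool.Agent.Caab.F5
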