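import Pool.Agent.Lib.MP_caab05_ag.F5.Defs

/-! The structure of the functional `LL`. -/

namespace Pool.Agent.Caab.F5

open Finset Polynomial

/-- the non-resonance conditions on the parameters -/
structure Par (b c : ℚ) : Prop where
  hb : ∀ z : ℤ, b ≠ z
  hc : ∀ z : ℤ, c ≠ z
  hbb : ∀ z : ℤ, b + b ≠ z
  hcc : ∀ z : ℤ, c + c ≠ z
  hbc : ∀ z : ℤ, b + c ≠ z
  hcb : ∀ z : ℤ, c - b ≠ z

theorem par_of {b c : ℚ} (h : BC b c) : Par b c := by
  have key : ∀ (q : ℚ) (k : ℤ), 5 * q = k → ¬ (5 : ℤ) ∣ k → ∀ z : ℤ, q ≠ z := by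
    intro q k hk hd z hz
    refine hd ⟨z, ?_⟩
    rw [hz] at hk
    exact_mod_cast hk.symm
  rcases h with ⟨rfl, rfl⟩ | ⟨rfl, rfl⟩ | ⟨rfl, rfl⟩ | ⟨rfl, rfl⟩
  · exact ⟨key _ (-2) (by norm_num) (by decide), key _ (-1) (by norm_num) (by decide),
      key _ (-4) (by norm_num) (by decide), key _ (-2) (by norm_num) (by decide),
      key _ (-3) (by norm_num) (by decide), key _ 1 (by norm_num) (by decide)⟩
  · exact ⟨key _ (-4) (by norm_num) (by decide), key _ (-2) (by norm_num) (by decide),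
      key _ (-8) (by norm_num) (by decide), key _ (-4) (by norm_num) (by decide),
      key _ (-6) (by norm_num) (by decide), key _ 2 (by norm_num) (by decide)⟩
  · exact ⟨key _ (-1) (by norm_num) (by decide), key _ (-3) (by norm_num) (by decide),
      key _ (-2) (by norm_num) (by decide), key _ (-6) (by norm_num) (by decide),
      key _ (-4) (by norm_num) (by decide), key _ (-2) (by norm_num) (by decide)⟩
  · exact ⟨key _ (-3) (by norm_num) (by decide), key _ (-4) (by norm_num) (by decide),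
      key _ (-6) (by norm_num) (by decide), key _ (-8) (by norm_num) (by decide),
      key _ (-7) (by norm_num) (by decide), key _ (-1) (by norm_num) (by decide)⟩

theorem mem_SS {b c y : ℚ} {m : ℕ} :
    y ∈ SS b c m ↔ (∃ j : ℕ, j < 30 * m ∧ y = c - 1 - j) ∨ ∃ j : ℕ, j < 29 * m ∧ y = b - 1 - j := by
  rw [SS, mem_union, mem_Sset, mem_Sset]

namespace Par

variable {b c : ℚ} (h : Par b c)
include h

theorem disj (m : ℕ) : Disjoint (Sset c (30 * m)) (Sset b (29 * m)) := disjoint_Sset h.hcb _ _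

theorem card_SS (m : ℕ) : (SS b c m).card = 59 * m := by
  rw [SS, card_union_of_disjoint (h.disj m), card_Sset, card_Sset]; ring

theorem ne_int {m : ℕ} {y : ℚ} (hy : y ∈ SS b c m) (z : ℤ) : y ≠ z := by
  rcases mem_SS.1 hy with ⟨j, -, rfl⟩ | ⟨j, -, rfl⟩
  · exact fun e => h.hc (z + 1 + j) (by push_cast; linarith)
  · exact fun e => h.hb (z + 1 + j) (by push_cast; linarith)

theorem add_one_ne {m : ℕ} {y : ℚ} (hy : y ∈ SS b c m) (z : ℤ) : y + 1 ≠ z :=
  fun e => h.ne_int hy (z - 1) (by push_cast; linarith)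

theorem add_b_ne {m : ℕ} {y : ℚ} (hy : y ∈ SS b c m) (z : ℤ) : y + b ≠ z := by
  rcases mem_SS.1 hy with ⟨j, -, rfl⟩ | ⟨j, -, rfl⟩
  · exact fun e => h.hbc (z + 1 + j) (by push_cast; linarith)
  · exact fun e => h.hbb (z + 1 + j) (by push_cast; linarith)

theorem add_c_ne {m : ℕ} {y : ℚ} (hy : y ∈ SS b c m) (z : ℤ) : y + c ≠ z := by
  rcases mem_SS.1 hy with ⟨j, -, rfl⟩ | ⟨j, -, rfl⟩
  · exact fun e => h.hcc (z + 1 + j) (by push_cast; linarith)
  · exact fun e => h.hbc (z + 1 + j) (by push_cast; linarith)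

theorem sum_val_SS (p m : ℕ) (y : ℚ) : ∑ z ∈ SS b c m, padicValRat p (y - z) =
    rv p (y + 1 - c) (30 * m) + rv p (y + 1 - b) (29 * m) := by
  rw [SS, sum_union (h.disj m), sum_val_Sset, sum_val_Sset]

/-- `XX` inverts the difference operator on `SS` -/
theorem tele {m : ℕ} {y : ℚ} (hy : y ∈ SS b c m) (f : ℚ → ℚ) :
    XX b c m (fun y => (y + b) * (y + c) * f y - (y + 1 - b) * (y + 1 - c) * f (y + 1)) y = f y := by
  set A : ℕ → ℚ := fun s =>
    rf (y + 1 - b) s * rf (y + 1 - c) s / (rf (y + b) s * rf (y + c) s) * f (y + s) with hA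
  have h1 : ∀ s ∈ range (30 * m), piS b c s y * ((y + s + b) * (y + s + c) * f (y + s) -
      (y + s + 1 - b) * (y + s + 1 - c) * f (y + s + 1)) = A s - A (s + 1) := by
    intro s _
    have n1 := rf_ne_zero (h.add_b_ne hy) s
    have n2 := rf_ne_zero (h.add_c_ne hy) s
    have n3 : y + b + s ≠ 0 := fun e => h.add_b_ne hy (-(s : ℤ)) (by push_cast; linarith)
    have n4 : y + c + s ≠ 0 := fun e => h.add_c_ne hy (-(s : ℤ)) (by push_cast; linarith)
    simp only [hA, piS, rf_succ]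
    push_cast
    rw [← add_assoc y s 1]
    field_simp
    ring
  rw [XX, sum_congr rfl h1, sum_range_sub']
  have h2 : rf (y + 1 - b) (30 * m) * rf (y + 1 - c) (30 * m) = 0 := by
    rcases mem_SS.1 hy with ⟨j, hj, rfl⟩ | ⟨j, hj, rfl⟩
    · exact mul_eq_zero_of_right _ (prod_eq_zero (mem_range.2 hj) (by ring))
    · exact mul_eq_zero_of_left (prod_eq_zero (i := j) (mem_range.2 (by omega)) (by ring)) _
  simp [hA, h2]

end Par

/-- one term of the functional -/
def FF (b c : ℚ) (m s ε : ℕ) (y : ℚ) : ℚ := ZZ b c m y * piS b c s y / (y + 1 + s) ^ ε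

theorem LL_etaF (b c a1 a2 : ℚ) (m : ℕ) (R : ℚ → ℚ) :
    LL b c m (etaF a1 a2) R = ∑ s ∈ range (30 * m),
      (a1 * dd (fun y => FF b c m s 0 y * R y) (SS b c m) +
        a2 * dd (fun y => FF b c m s 1 y * R y) (SS b c m)) := by
  simp only [← dd_const_mul, ← dd_add]
  rw [← dd_sum, LL]
  refine dd_congr fun y _ => ?_
  rw [XX, mul_sum, sum_mul]
  refine sum_congr rfl fun s _ => ?_
  simp only [FF, etaF, pow_zero, pow_one, div_one]
  rw [add_right_comm y (s : ℚ) 1]
  ring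

theorem V_LL {p : ℕ} [Fact p.Prime] {b c : ℚ} {m : ℕ} {R : ℚ → ℚ} {r : ℝ} (a1 a2 : ℤ)
    (h : ∀ s < 30 * m, ∀ ε ≤ 1, V p (dd (fun y => FF b c m s ε y * R y) (SS b c m)) r) :
    V p (LL b c m (etaF a1 a2) R) r := by
  rw [LL_etaF]
  exact V.sum fun s hs => ((V.int a1).zero_mul' (h s (mem_range.1 hs) 0 (by omega))).add
    ((V.int a2).zero_mul' (h s (mem_range.1 hs) 1 le_rfl))

/-- exact valuation of one residue -/
theorem val_term {p : ℕ} [Fact p.Prime] {b c : ℚ} (h : Par b c) {m s ε : ℕ} {y : ℚ}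
    (hy : y ∈ SS b c m) (h1 : rf (y + 1 - b) s ≠ 0) (h2 : rf (y + 1 - c) s ≠ 0) :
    padicValRat p (FF b c m s ε y / ∏ z ∈ (SS b c m).erase y, (y - z)) =
      rv p (y + 1) (7 * m) + rv p (y + b) (6 * m) + rv p (y + c) (5 * m) +
        rv p (y + 1 - b) s + rv p (y + 1 - c) s - rv p (y + b) (s + 1) - rv p (y + c) (s + 1) -
        ε * padicValRat p (y + 1 + s) - rv p (y + 1 - c) (30 * m) - rv p (y + 1 - b) (29 * m) := by
  have n1 := rf_ne_zero (h.add_one_ne hy) (7 * m)
  have n2 := rf_ne_zero (h.add_b_ne hy) (6 * m)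
  have n3 := rf_ne_zero (h.add_c_ne hy) (5 * m)
  have n4 := rf_ne_zero (h.add_b_ne hy) (s + 1)
  have n5 := rf_ne_zero (h.add_c_ne hy) (s + 1)
  have n6 : y + 1 + s ≠ 0 := fun e => h.add_one_ne hy (-(s : ℤ)) (by push_cast; linarith)
  have n7 := prod_erase_ne_zero (SS b c m) y
  have n8 : ZZ b c m y ≠ 0 := mul_ne_zero (mul_ne_zero n1 n2) n3
  have n9 : piS b c s y ≠ 0 := div_ne_zero (mul_ne_zero h1 h2) (mul_ne_zero n4 n5)
  rw [FF, padicValRat.div (div_ne_zero (mul_ne_zero n8 n9) (pow_ne_zero _ n6)) n7,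
    padicValRat.div (mul_ne_zero n8 n9) (pow_ne_zero _ n6), padicValRat.mul n8 n9, ZZ,
    padicValRat.mul (mul_ne_zero n1 n2) n3, padicValRat.mul n1 n2, piS,
    padicValRat.div (mul_ne_zero h1 h2) (mul_ne_zero n4 n5), padicValRat.mul h1 h2,
    padicValRat.mul n4 n5, padicValRat.pow, val_prod_erase, h.sum_val_SS,
    val_rf n1, val_rf n2, val_rf n3, val_rf n4, val_rf n5, val_rf h1, val_rf h2]
  ring

theorem FF_eq_zero {b c : ℚ} {m s ε : ℕ} {y : ℚ}
    (h : rf (y + 1 - b) s = 0 ∨ rf (y + 1 - c) s = 0) : FF b c m s ε y = 0 := by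
  rcases h with h | h <;> simp [FF, piS, h]

/-- the functional as a linear map on polynomials -/
def LLlin (b c : ℚ) (m : ℕ) (η : ℚ → ℚ) : ℚ[X] →ₗ[ℚ] ℚ where
  toFun P := LL b c m η (fun y => P.eval y)
  map_add' P Q := by
    simp only [LL, eval_add, mul_add, dd_add]
  map_smul' a P := by
    simp only [LL, eval_smul, smul_eq_mul, RingHom.id_apply, ← dd_const_mul]
    exact dd_congr fun y _ => by ring

/-- valuation of the determinant from the valuations of the entries in a monic basis -/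
theorem V_DD {p : ℕ} [Fact p.Prime] {b c a1 a2 : ℚ} {m : ℕ} (Q : ℕ → ℚ[X])
    (hQ : ∀ i < 20 * m, (Q i).Monic) (hd : ∀ i < 20 * m, (Q i).natDegree = i) (r : ℕ → ℝ)
    (h : ∀ i < 20 * m, ∀ j < 20 * m,
      V p (LL b c m (etaF a1 a2) (fun y => (Q i).eval y * (Q j).eval y)) (r i + r j)) :
    V p (DD b c a1 a2 m) (2 * ∑ i ∈ range (20 * m), r i) := by
  have h1 := hank_basis (LLlin b c m (etaF a1 a2)) (20 * m) (fun i => Q i) (fun i => Q i)
    (fun i => hQ i i.2) (fun i => hd i i.2) (fun i => hQ i i.2) (fun i => hd i i.2)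
  have h2 : DD b c a1 a2 m = hank (fun l => LLlin b c m (etaF a1 a2) (X ^ l)) (20 * m) := by
    simp [DD, LLlin]
  rw [h2, ← h1, sum_range]
  refine V.det _ (fun i : Fin (20 * m) => r i) fun i j => ?_
  simpa [LLlin] using h i i.2 j j.2

theorem V_DD_levels {p : ℕ} [Fact p.Prime] {b c a1 a2 : ℚ} {m : ℕ} (Φ : ℕ → ℤ) (lam : ℤ)
    (hlam : lam ≤ 0)
    (h : ∀ (e : ℕ → ℕ) (t : ℕ) (l : ℝ), l ≤ 0 → (∀ x < p, l ≤ (Φ x : ℝ) + e x) →
      V p (LL b c m (etaF a1 a2) (fun y => y ^ t * ∏ x ∈ range p, (y - x) ^ e x)) l) :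
    V p (DD b c a1 a2 m) ((lam * (20 * m) - ∑ x ∈ range p, hh (lam - Φ x) : ℤ) : ℝ) := by
  classical
  set ee : ℕ → ℕ → ℕ := fun d x => ((lam - Φ x - d + 1) / 2).toNat with hee
  set K : ℕ → ℕ := fun d => ∑ x ∈ range p, ee d x with hK
  set D0 : ℕ := ∑ x ∈ range p, (lam - Φ x).natAbs with hD0
  have hK0 : K D0 = 0 := by
    refine sum_eq_zero fun x hx => ?_
    have : (lam - Φ x).natAbs ≤ D0 :=
      single_le_sum (f := fun x => (lam - Φ x).natAbs) (fun _ _ => Nat.zero_le _) hx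
    simp only [hee]
    omega
  have hex : ∀ i : ℕ, ∃ d, K d ≤ i := fun i => ⟨D0, by omega⟩
  set d : ℕ → ℕ := fun i => Nat.find (hex i) with hd
  have hd1 : ∀ i, K (d i) ≤ i := fun i => Nat.find_spec (hex i)
  have hd2 : ∀ i, d i ≤ D0 := fun i => Nat.find_min' (hex i) (by omega)
  have hd3 : ∀ i d', d' < d i → i < K d' := fun i d' h' => by
    have := Nat.find_min (hex i) h'
    omega
  set Q : ℕ → ℚ[X] := fun i => X ^ (i - K (d i)) * ∏ x ∈ range p, (X - C (x : ℚ)) ^ ee (d i) x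
    with hQ
  have hm : ∀ i, (∏ x ∈ range p, (X - C (x : ℚ)) ^ ee (d i) x).Monic := fun i =>
    monic_prod_of_monic _ _ fun x _ => (monic_X_sub_C _).pow _
  have h1 := V_DD (p := p) (b := b) (c := c) (a1 := a1) (a2 := a2) (m := m) Q
    (fun i _ => (monic_X_pow _).mul (hm i))
    (fun i _ => by
      simp only [hQ]
      rw [(monic_X_pow _).natDegree_mul (hm i), natDegree_X_pow,
        natDegree_prod_of_monic _ _ fun x _ => (monic_X_sub_C _).pow _]
      simp only [natDegree_pow, natDegree_X_sub_C, mul_one]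
      have := hd1 i
      simp only [hK] at this ⊢
      omega)
    (fun i => ((lam : ℝ) - d i) / 2)
    (fun i _ j _ => by
      have hl : (lam : ℝ) ≤ 0 := by exact_mod_cast hlam
      have := h (fun x => ee (d i) x + ee (d j) x) (i - K (d i) + (j - K (d j)))
        (((lam : ℝ) - d i) / 2 + ((lam : ℝ) - d j) / 2)
        (by
          have h1 : (0 : ℝ) ≤ d i := by positivity
          have h2 : (0 : ℝ) ≤ d j := by positivity
          linarith)
        (fun x _ => by
          have h1 : lam - Φ x - d i ≤ 2 * (ee (d i) x : ℤ) := by simp only [hee]; omega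
          have h2 : lam - Φ x - d j ≤ 2 * (ee (d j) x : ℤ) := by simp only [hee]; omega
          have h1' : (lam : ℝ) - Φ x - d i ≤ 2 * (ee (d i) x : ℝ) := by exact_mod_cast h1
          have h2' : (lam : ℝ) - Φ x - d j ≤ 2 * (ee (d j) x : ℝ) := by exact_mod_cast h2
          push_cast
          linarith)
      convert this using 3 with y
      simp only [hQ, eval_mul, eval_pow, eval_X, eval_prod, eval_sub, eval_C, pow_add,
        prod_mul_distrib]
      ring)
  refine h1.mono ?_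
  have h2 : ∑ i ∈ range (20 * m), (d i : ℤ) ≤ ∑ x ∈ range p, hh (lam - Φ x) := by
    have a1 : ∀ i ∈ range (20 * m), (d i : ℤ) ≤
        ∑ d' ∈ range D0, (if i < K d' then (1 : ℤ) else 0) := by
      intro i _
      have : range (d i) ⊆ (range D0).filter fun d' => i < K d' := fun d' hd' =>
        mem_filter.2 ⟨mem_range.2 ((mem_range.1 hd').trans_le (hd2 i)), hd3 i d' (mem_range.1 hd')⟩
      have := card_le_card this
      rw [card_range, card_filter] at this
      exact_mod_cast this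
    refine (sum_le_sum a1).trans ?_
    rw [sum_comm]
    have a2 : ∀ d' ∈ range D0, ∑ i ∈ range (20 * m), (if i < K d' then (1 : ℤ) else 0) ≤
        ∑ x ∈ range p, (ee d' x : ℤ) := by
      intro d' _
      have : ((range (20 * m)).filter fun i => i < K d') ⊆ range (K d') := fun i hi =>
        mem_range.2 (mem_filter.1 hi).2
      have := card_le_card this
      rw [card_range, card_filter] at this
      simp only [hK] at this ⊢
      exact_mod_cast this
    refine (sum_le_sum a2).trans ?_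
    rw [sum_comm]
    exact sum_le_sum fun x _ => sum_toNat_le_hh D0 (lam - Φ x)
  have h3 : ∑ i ∈ range (20 * m), (d i : ℝ) ≤ ∑ x ∈ range p, (hh (lam - Φ x) : ℝ) := by
    exact_mod_cast h2
  rw [← sum_div, sum_sub_distrib]
  simp only [sum_const, card_range, nsmul_eq_mul]
  push_cast
  linarith

end Pool.Agent.Caab.F5
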